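import Pool.Agent.H414.V.Places
import Pool.Agent.H414.E.Euler

/-!
Euler products over sets with norms.
-/

set_option autoImplicit false

namespace Pool.Agent.H414.V

open Finset Filter Topology
open Pool.Agent.H414.E (gt gt_le gt_diff)

variable {P : Type*} {N : P → ℕ} {blk : ℕ → Finset P}

theorem Places.small (h : Places N blk) {v : P} {z : ℂ} {s : ℂ}
    (hz : ‖z‖ * (N v : ℝ) ^ (-(1 / 2) : ℝ) ≤ 3 / 4) (hs : 1 / 2 ≤ s.re) :
    ‖z * (N v : ℂ) ^ (-s)‖ ≤ 3 / 4 := by
  rw [norm_mul, h.norm_cpow]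
  refine le_trans ?_ hz
  refine mul_le_mul_of_nonneg_left ?_ (norm_nonneg _)
  exact Real.rpow_le_rpow_of_exponent_le (h.one_le v) (by linarith)

/-- The logarithm of an Euler product up to a function which is holomorphic for `Re s > β`. -/
theorem Places.euler (h : Places N blk) {ι : Type*} [Fintype ι] (B : P → ι → ℂ) (β : ℝ)
    (hβ : 1 / 2 ≤ β)
    (hB : ∀ v l, ‖B v l‖ * (N v : ℝ) ^ (-(1 / 2) : ℝ) ≤ 3 / 4)
    (h2 : ∀ σ : ℝ, β < σ → ∀ l, Summable fun v => ‖B v l‖ ^ 2 * (N v : ℝ) ^ (-(2 * σ))) :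
    ∃ g : ℂ → ℂ, DifferentiableOn ℂ g {s | β < s.re} ∧ ∀ s : ℂ, β < s.re →
      Summable (fun v => ∑ l, B v l * (N v : ℂ) ^ (-s)) →
      HasProd (fun v => ∏ l, (1 - B v l * (N v : ℂ) ^ (-s))⁻¹)
        (Complex.exp (∑' v, ∑ l, B v l * (N v : ℂ) ^ (-s) + g s)) := by
  have hsm : ∀ v l {s : ℂ}, β < s.re → ‖B v l * (N v : ℂ) ^ (-s)‖ ≤ 3 / 4 :=
    fun v l s hs => h.small (hB v l) (by linarith)
  set F : P → ℂ → ℂ := fun v s => ∑ l, gt (B v l * (N v : ℂ) ^ (-s)) with hF
  have hbd : ∀ v {s : ℂ}, β < s.re →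
      ‖F v s‖ ≤ ∑ l, 2 * (‖B v l‖ ^ 2 * (N v : ℝ) ^ (-(2 * s.re))) := by
    intro v s hs
    refine (norm_sum_le _ _).trans (Finset.sum_le_sum fun l _ => ?_)
    refine (gt_le (hsm v l hs)).trans (le_of_eq ?_)
    rw [norm_mul, mul_pow, h.norm_cpow, ← Real.rpow_natCast ((N v : ℝ) ^ (-s.re)),
      ← Real.rpow_mul (h.pos v).le]
    congr 3
    push_cast
    ring
  have hsum : ∀ σ : ℝ, β < σ →
      Summable fun v => ∑ l, 2 * (‖B v l‖ ^ 2 * (N v : ℝ) ^ (-(2 * σ))) := fun σ hσ =>
    summable_sum fun l _ => (h2 σ hσ l).mul_left 2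
  have hFs : ∀ {s : ℂ}, β < s.re → Summable fun v => F v s := fun hs =>
    Summable.of_norm_bounded (hsum _ hs) fun v => hbd v hs
  refine ⟨fun s => ∑' v, F v s, ?_, fun s hs h3 => ?_⟩
  · intro s hs
    have hs' : β < s.re := hs
    set δ : ℝ := (s.re + β) / 2 with hδ
    have hd1 : β < δ := by rw [hδ]; linarith
    have hd2 : δ < s.re := by rw [hδ]; linarith
    have hopen : IsOpen {z : ℂ | δ < z.re} := isOpen_lt continuous_const Complex.continuous_re
    have h3 : DifferentiableOn ℂ (fun z => ∑' v, F v z) {z : ℂ | δ < z.re} := by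
      refine Complex.differentiableOn_tsum_of_summable_norm (u := fun v =>
        ∑ l, 2 * (‖B v l‖ ^ 2 * (N v : ℝ) ^ (-(2 * δ)))) (hsum δ hd1)
        (fun v => ?_) hopen fun v z hz => ?_
      · intro z hz
        have hz' : δ < z.re := hz
        refine DifferentiableAt.differentiableWithinAt ?_
        rw [hF]
        refine DifferentiableAt.fun_sum fun l _ => ?_
        have h4 : DifferentiableAt ℂ (fun z : ℂ => B v l * (N v : ℂ) ^ (-z)) z := by
          refine DifferentiableAt.const_mul ?_ _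
          refine DifferentiableAt.const_cpow differentiableAt_id.neg ?_
          left
          have := h.two v
          exact_mod_cast (by omega : N v ≠ 0)
        exact (gt_diff (hsm v l (by linarith))).comp z h4
      · have hz' : δ < z.re := hz
        refine (hbd v (by linarith)).trans (Finset.sum_le_sum fun l _ => ?_)
        refine mul_le_mul_of_nonneg_left (mul_le_mul_of_nonneg_left ?_ (by positivity))
          (by norm_num)
        exact Real.rpow_le_rpow_of_exponent_le (h.one_le v) (by linarith)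
    exact (h3.differentiableAt (hopen.mem_nhds hd2)).differentiableWithinAt
  · have h4 : HasSum (fun v => ∑ l, -Complex.log (1 - B v l * (N v : ℂ) ^ (-s)))
        (∑' v, ∑ l, B v l * (N v : ℂ) ^ (-s) + ∑' v, F v s) := by
      have h5 := h3.hasSum.add (hFs hs).hasSum
      refine h5.congr_fun ?_ |> fun h => h
      intro v
      rw [hF]
      simp only [gt]
      rw [← Finset.sum_add_distrib]
      refine Finset.sum_congr rfl fun l _ => ?_
      ring
    have h5 := h4.cexp
    refine h5.congr_fun ?_ |> fun h => h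
    intro v
    simp only [Function.comp]
    rw [Complex.exp_sum]
    refine Finset.prod_congr rfl fun l _ => ?_
    rw [Complex.exp_neg, Complex.exp_log]
    intro h6
    have h7 := hsm v l hs
    have h8 : B v l * (N v : ℂ) ^ (-s) = 1 := (sub_eq_zero.1 h6).symm
    rw [h8] at h7
    norm_num at h7

end Pool.Agent.H414.V
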