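import Pool.Agent.H414.V.Sys
import Pool.Agent.H414.GRC.Lower

/-!
The extremal system of Satake parameters over a set of places.
-/

set_option autoImplicit false

namespace Pool.Agent.H414.V

open Finset Filter Topology ComplexConjugate Pool.Agent.H414.GRC

variable {P : Type*} {N : P → ℕ} {blk : ℕ → Finset P}

/-- The local parameters of an `L`-function. -/
structure Tw (N : P → ℕ) (blk : ℕ → Finset P) where
  m : ℕ
  B : P → Fin m → ℂ
  θ : ℝ
  θ_lt : θ < 1 / 2
  bad : Finset P
  bound : ∀ v ∉ bad, ∀ l, ‖B v l‖ ≤ (N v : ℝ) ^ θ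
  β : ℝ
  β_ge : 1 / 2 ≤ β
  β_le : β ≤ 1
  second : ∀ σ : ℝ, β < σ → ∀ l, Summable fun v => ‖B v l‖ ^ 2 * (N v : ℝ) ^ (-(2 * σ))
  first : ∀ ε : ℝ, 0 < ε → ∃ C : ℝ, ∀ n : ℕ,
    ∑ m ∈ range n, ∑ v ∈ blk m, ‖∑ l, B v l‖ ^ 2 ≤ C * ((n : ℝ) + 1) ^ (1 + ε)

theorem u_lip (T : ℝ) (n : ℕ) : ∃ L : ℝ, 0 ≤ L ∧ ∀ a, T ≤ a → a ≤ T + 1 →
    |u n a - u n T| ≤ L * (a - T) := by
  induction n using Nat.strong_induction_on with
  | _ n ih =>
    match n with
    | 0 => exact ⟨0, le_rfl, fun a _ _ => by simp⟩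
    | 1 => exact ⟨1, zero_le_one, fun a h1 _ => by
        rw [u_one, u_one, one_mul, abs_of_nonneg (by linarith)]⟩
    | n + 2 =>
      obtain ⟨L1, hL1, h1⟩ := ih (n + 1) (by omega)
      obtain ⟨L0, hL0, h0⟩ := ih n (by omega)
      refine ⟨(|T| + 1) * L1 + |u (n + 1) T| + L0, by positivity, fun a ha1 ha2 => ?_⟩
      have e : u (n + 2) a - u (n + 2) T = a * (u (n + 1) a - u (n + 1) T) +
          (a - T) * u (n + 1) T - (u n a - u n T) := by
        rw [u_add_two, u_add_two]
        ring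
      have ha : |a| ≤ |T| + 1 := by
        have : |a| ≤ |T| + |a - T| := by
          have := abs_add_le T (a - T)
          rwa [add_sub_cancel] at this
        rw [abs_of_nonneg (by linarith : 0 ≤ a - T)] at this
        linarith
      rw [e]
      have e1 : |a * (u (n + 1) a - u (n + 1) T)| ≤ (|T| + 1) * (L1 * (a - T)) := by
        rw [abs_mul]
        exact mul_le_mul ha (h1 a ha1 ha2) (abs_nonneg _) (by positivity)
      have e2 : |(a - T) * u (n + 1) T| = (a - T) * |u (n + 1) T| := by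
        rw [abs_mul, abs_of_nonneg (by linarith : 0 ≤ a - T)]
      have e3 := h0 a ha1 ha2
      calc _ ≤ |a * (u (n + 1) a - u (n + 1) T) + (a - T) * u (n + 1) T| + |u n a - u n T| :=
            abs_sub _ _
        _ ≤ |a * (u (n + 1) a - u (n + 1) T)| + |(a - T) * u (n + 1) T| + |u n a - u n T| := by
            have := abs_add_le (a * (u (n + 1) a - u (n + 1) T)) ((a - T) * u (n + 1) T)
            linarith
        _ ≤ _ := by
            rw [e2]
            nlinarith

theorem W_lip (k : ℕ) (T : ℝ) (hT : 2 ≤ T) : ∃ L : ℝ, 0 ≤ L ∧ ∀ a, T ≤ a → a ≤ T + 1 →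
    |1 / W k a - 1 / W k T| ≤ L * (a - T) := by
  choose L hL0 hL using u_lip T
  have hW1 : ∀ a, 2 ≤ a → 1 ≤ W k a := by
    intro a ha
    have h1 : u k a ^ 2 ≤ W k a := by
      have h2 := Finset.single_le_sum (s := range (k + 1))
        (f := fun i => if (k + i) % 2 = 0 then u i a ^ 2 else 0) (fun i _ => by
          split_ifs <;> positivity) (Finset.mem_range.2 (Nat.lt_succ_self k))
      rw [if_pos (by omega)] at h2
      exact h2
    have h2 := (u_pos_mono ha k).1
    nlinarith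
  refine ⟨∑ i ∈ range (k + 1), L i * (2 * |u i T| + L i), ?_, fun a h1 h2 => ?_⟩
  · exact sum_nonneg fun i _ => mul_nonneg (hL0 i) (add_nonneg (by positivity) (hL0 i))
  · have h3 := hW1 a (hT.trans h1)
    have h4 := hW1 T hT
    have h5 : |1 / W k a - 1 / W k T| ≤ |W k a - W k T| := by
      rw [div_sub_div _ _ (by linarith) (by linarith), abs_div, one_mul, mul_one,
        abs_sub_comm (W k T), abs_of_pos (by positivity : 0 < W k a * W k T)]
      refine div_le_self (abs_nonneg _) ?_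
      nlinarith
    refine h5.trans ?_
    rw [W, W, ← sum_sub_distrib, sum_mul]
    refine (abs_sum_le_sum_abs _ _).trans (sum_le_sum fun i _ => ?_)
    have h6 := hL i a h1 h2
    have h7 : 0 ≤ a - T := by linarith
    have h8 : a - T ≤ 1 := by linarith
    split_ifs
    · rw [show u i a ^ 2 - u i T ^ 2 = (u i a - u i T) * (2 * u i T + (u i a - u i T)) by ring,
        abs_mul]
      have h9 : |2 * u i T + (u i a - u i T)| ≤ 2 * |u i T| + L i := by
        refine (abs_add_le _ _).trans ?_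
        rw [abs_mul, abs_two]
        have := hL0 i
        nlinarith
      calc _ ≤ (L i * (a - T)) * (2 * |u i T| + L i) :=
            mul_le_mul h6 h9 (abs_nonneg _) (mul_nonneg (hL0 i) h7)
        _ = _ := by ring
    · rw [sub_zero, abs_zero]
      have := hL0 i
      positivity

theorem one_le_W (k : ℕ) {a : ℝ} (ha : 2 ≤ a) : 1 ≤ W k a := by
  have h1 : u k a ^ 2 ≤ W k a := by
    have h2 := Finset.single_le_sum (s := range (k + 1))
      (f := fun i => if (k + i) % 2 = 0 then u i a ^ 2 else 0) (fun i _ => by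
        split_ifs <;> positivity) (Finset.mem_range.2 (Nat.lt_succ_self k))
    rw [if_pos (by omega)] at h2
    exact h2
  have h2 := (u_pos_mono ha k).1
  nlinarith

theorem Places.disj (h : Places N blk) (n : ℕ) :
    ((range n : Finset ℕ) : Set ℕ).PairwiseDisjoint blk := by
  intro a _ b _ hab
  rw [Function.onFun, Finset.disjoint_left]
  intro v h1 h2
  rw [h.mem] at h1 h2
  exact hab (h1.symm.trans h2)

theorem Places.sum_inv (h : Places N blk) : ∃ Z : ℝ, 0 ≤ Z ∧ ∀ n : ℕ,
    ∑ m ∈ range n, ∑ v ∈ blk m, 1 / (N v : ℝ) ≤ Z * ((n : ℝ) + 1) ^ (1 / 2 : ℝ) := by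
  classical
  have hs := h.summable_rpow (r := 3 / 2) (by norm_num)
  refine ⟨∑' v, (N v : ℝ) ^ (-(3 / 2) : ℝ), tsum_nonneg fun v => by
    have := h.pos v
    positivity, fun n => ?_⟩
  calc ∑ m ∈ range n, ∑ v ∈ blk m, 1 / (N v : ℝ)
      ≤ ∑ m ∈ range n, ∑ v ∈ blk m, (N v : ℝ) ^ (-(3 / 2) : ℝ) * ((n : ℝ) + 1) ^ (1 / 2 : ℝ) := by
        refine sum_le_sum fun m hm => sum_le_sum fun v hv => ?_
        have h1 := h.pos v
        have h2 : (N v : ℝ) ≤ (n : ℝ) + 1 := by
          rw [(h.mem m v).1 hv]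
          have := Finset.mem_range.1 hm
          have : (m : ℝ) ≤ n := by exact_mod_cast this.le
          linarith
        have h3 : 1 / (N v : ℝ) = (N v : ℝ) ^ (-(3 / 2) : ℝ) * (N v : ℝ) ^ (1 / 2 : ℝ) := by
          rw [← Real.rpow_add h1, one_div, ← Real.rpow_neg_one]
          norm_num
        rw [h3]
        refine mul_le_mul_of_nonneg_left (Real.rpow_le_rpow h1.le h2 (by norm_num))
          (by positivity)
    _ = (∑ v ∈ (range n).biUnion blk, (N v : ℝ) ^ (-(3 / 2) : ℝ)) *
          ((n : ℝ) + 1) ^ (1 / 2 : ℝ) := by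
        rw [sum_biUnion (h.disj n), sum_mul]
        exact sum_congr rfl fun m _ => by rw [sum_mul]
    _ ≤ _ := by
        refine mul_le_mul_of_nonneg_right ?_ (by positivity)
        exact hs.sum_le_tsum _ fun v _ => by
          have := h.pos v
          positivity

open Classical in
theorem Places.lower (h : Places N blk) (k : ℕ) (hk : 1 ≤ k) (T : ℝ) (hT : 2 ≤ T)
    (F : ℕ → Tw N blk) (Q : ℕ → Set P) (δ : ℝ) (hδ : 0 < δ) :
    ∃ α : P → ℂ, (∀ v, α v ≠ 0) ∧ (∀ v, ‖α v‖ = 1 ∨ (α v).im = 0) ∧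
      (∀ v, ‖α v‖ ^ (2 * k) < N v ∧ ‖(α v)⁻¹‖ ^ (2 * k) < N v) ∧
      (∀ v, ‖α v‖ ≤ T + 1 ∧ ‖(α v)⁻¹‖ ≤ T + 1) ∧
      (∀ v, ‖α v‖ ≤ (N v : ℝ) ^ δ ∧ ‖(α v)⁻¹‖ ≤ (N v : ℝ) ^ δ) ∧
      (∀ i, ∃ S₀ : Finset P, ((∀ v l, ‖(F i).B v l‖ ≤ 1) → S₀ = ∅) ∧
        ∀ S : Finset P, S₀ ⊆ S → ∀ n : ℕ, 1 ≤ n → n ≤ 2 * k →
        ∃ g : ℂ → ℂ, DifferentiableOn ℂ g {s | (F i).β < s.re} ∧ ∀ s : ℂ, 1 < s.re →
          HasProd (fun v => if v ∈ S then 1 else
            ∏ j, symFactor n (α v) ((F i).B v j * (N v : ℂ) ^ (-s))) (Complex.exp (g s))) ∧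
      ∀ i (ε : ℝ), 0 < ε → ∃ C : ℝ, ∀ n : ℕ,
        |∑ m ∈ range n, ∑ v ∈ blk m,
            (if v ∈ Q i ∧ ‖α v‖ ≠ 1 ∧ T ≤ ‖α v + (α v)⁻¹‖ then (1 : ℝ) else 0) -
          1 / W k T * ∑ m ∈ range n, ∑ v ∈ blk m, (if v ∈ Q i then (1 : ℝ) else 0)| ≤
          C * ((n : ℝ) + 1) ^ (1 / 2 + ε) := by
  have hT1 : (1 : ℝ) ≤ T + 1 := by linarith
  set R : ℝ := (T + 1) ^ (2 * k) + 1 with hR
  have hR1 : (1 : ℝ) ≤ R := by
    have : (0 : ℝ) ≤ (T + 1) ^ (2 * k) := by positivity
    linarith
  -- the first place with a non-trivial law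
  obtain ⟨N0, hN1, hN2⟩ : ∃ N0 : ℕ, 2 * R ^ 2 ≤ N0 ∧ T + 1 ≤ (N0 : ℝ) ^ δ := by
    have h1 := (tendsto_rpow_atTop hδ).comp (tendsto_natCast_atTop_atTop (R := ℝ))
    obtain ⟨n, hn1, hn2⟩ := ((h1.eventually_ge_atTop (T + 1)).and
      (eventually_ge_atTop ⌈2 * R ^ 2⌉₊)).exists
    exact ⟨n, (Nat.le_ceil _).trans (by exact_mod_cast hn2), hn1⟩
  set a : P → ℝ := fun v => T + 1 / (N v : ℝ) with ha
  have hNpos : ∀ v, (0 : ℝ) < N v := h.pos
  have ha1 : ∀ v, T < a v := fun v => by
    simp only [ha]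
    have := hNpos v
    have : (0 : ℝ) < 1 / (N v : ℝ) := by positivity
    linarith
  have ha2 : ∀ v, a v ≤ T + 1 := fun v => by
    simp only [ha]
    have : 1 / (N v : ℝ) ≤ 1 := by
      rw [div_le_one (hNpos v)]
      exact h.one_le v
    linarith
  choose lam w hw0 hw1 hlam hmom hwa using fun v => quad k hk (a v) (lt_of_le_of_lt hT (ha1 v))
  set y : P → Fin (k + 2) → ℝ := fun v j => if N v < N0 then 0 else lam v j with hy
  have hyb : ∀ v j, |y v j| ≤ T + 1 := by
    intro v j
    simp only [hy]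
    split_ifs
    · rw [abs_zero]; linarith
    · rcases hlam v j with h1 | h1
      · linarith
      · rw [h1]; exact ha2 v
  have hubd : ∀ n : ℕ, ∃ U : ℝ, ∀ t : ℝ, |t| ≤ T + 1 → |u n t| ≤ U := by
    intro n
    obtain ⟨U, hU⟩ := (isCompact_Icc (a := -(T + 1)) (b := T + 1)).exists_bound_of_continuousOn
      (u_continuous n).continuousOn
    exact ⟨U, fun t ht => hU t (abs_le.1 ht)⟩
  choose U hU using hubd
  -- the functions
  set tr : ℕ → P → ℂ := fun i v => ∑ l, (F i).B v l with htr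
  set big : ℝ → Prop := fun t => 2 < |t| ∧ T ≤ |t| with hbig
  set Φ : ℕ → ℕ → P → ℝ → ℂ := fun i n v t =>
    if N v < N0 then 0 else
    if n = 0 then (if v ∈ Q i then (((if big t then (1 : ℝ) else 0) - 1 / W k (a v) : ℝ) : ℂ) else 0)
    else if n ≤ 2 * k then (u n t : ℂ) * tr i v else 0 with hΦ
  set M : ℕ → ℕ → P → ℝ := fun i n v => if n = 0 then 2 else |U n| * ‖tr i v‖ with hM
  have hWa : ∀ v, 0 < 1 / W k (a v) ∧ 1 / W k (a v) ≤ 1 := by
    intro v
    have h1 := one_le_W k (hT.trans (ha1 v).le)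
    exact ⟨by positivity, by rw [div_le_one (by linarith)]; exact h1⟩
  have hbiglam : ∀ v j, big (lam v j) ↔ |lam v j| = a v := by
    intro v j
    simp only [hbig]
    have h6 := ha1 v
    constructor
    · rintro ⟨h8, -⟩
      rcases hlam v j with h9 | h9
      · linarith
      · exact h9
    · intro h7
      exact ⟨by rw [h7]; linarith, by rw [h7]; exact h6.le⟩
  obtain ⟨x, hx1, hx2⟩ := h.atoms y w hw0 hw1 (fun j v t => Φ j.unpair.1 j.unpair.2 v t)
    (by
      intro j v
      simp only [hΦ]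
      by_cases h1 : N v < N0
      · simp [h1]
      · simp only [if_neg h1]
        have h2 : ∀ l, y v l = lam v l := fun l => by simp only [hy]; rw [if_neg h1]
        simp only [h2]
        by_cases h3 : j.unpair.2 = 0
        · simp only [if_pos h3]
          by_cases h4 : v ∈ Q j.unpair.1
          · simp only [if_pos h4]
            have h5 : ∑ l, w v l * ((if big (lam v l) then (1 : ℝ) else 0) - 1 / W k (a v)) = 0 := by
              simp only [mul_sub, hbiglam]
              rw [sum_sub_distrib, hwa v, ← sum_mul, hw1 v, one_mul, sub_self]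
            exact_mod_cast h5
          · simp [h4]
        · simp only [if_neg h3]
          by_cases h4 : j.unpair.2 ≤ 2 * k
          · simp only [if_pos h4]
            have h5 := moments (lam v) (w v) (hmom v) j.unpair.2 (by omega) h4
            have h6 : ∑ l, (w v l : ℂ) * ((u j.unpair.2 (lam v l) : ℂ) * tr j.unpair.1 v) =
                ((∑ l, w v l * u j.unpair.2 (lam v l) : ℝ) : ℂ) * tr j.unpair.1 v := by
              push_cast
              rw [sum_mul]
              exact sum_congr rfl fun l _ => by ring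
            rw [h6, h5]
            simp
          · simp [h4])
    (fun j v => M j.unpair.1 j.unpair.2 v)
    (by
      intro j v l
      simp only [hΦ, hM]
      by_cases h1 : N v < N0
      · rw [if_pos h1, norm_zero]
        split_ifs
        · norm_num
        · positivity
      · simp only [if_neg h1]
        by_cases h3 : j.unpair.2 = 0
        · simp only [if_pos h3]
          by_cases h4 : v ∈ Q j.unpair.1
          · simp only [if_pos h4]
            rw [Complex.norm_real, Real.norm_eq_abs]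
            obtain ⟨h5, h6⟩ := hWa v
            split_ifs
            · rw [abs_of_nonneg (by linarith)]; linarith
            · rw [zero_sub, abs_neg, abs_of_pos h5]; linarith
          · simp [h4]
        · simp only [if_neg h3]
          by_cases h4 : j.unpair.2 ≤ 2 * k
          · simp only [if_pos h4]
            rw [norm_mul, Complex.norm_real, Real.norm_eq_abs]
            exact mul_le_mul_of_nonneg_right ((hU _ _ (hyb v l)).trans (le_abs_self _))
              (norm_nonneg _)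
          · rw [if_neg h4, norm_zero]
            positivity)
    (by
      intro j ε hε
      simp only [hM]
      by_cases h3 : j.unpair.2 = 0
      · simp only [if_pos h3]
        obtain ⟨C, hC⟩ := h.count
        refine ⟨4 * C, fun n => ?_⟩
        have h4 := hC n
        have hC0 : 0 ≤ C := by
          have := hC 0
          simp at this
          exact this
        have h5 : ∑ m ∈ range n, ∑ v ∈ blk m, (2 : ℝ) ^ 2 =
            4 * ∑ m ∈ range n, ((blk m).card : ℝ) := by
          rw [mul_sum]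
          refine sum_congr rfl fun m _ => ?_
          rw [sum_const, nsmul_eq_mul]
          ring
        rw [h5, mul_assoc]
        refine mul_le_mul_of_nonneg_left (h4.trans (mul_le_mul_of_nonneg_left ?_ hC0)) (by norm_num)
        have h6 : (1 : ℝ) ≤ (n : ℝ) + 1 := by
          have : (0 : ℝ) ≤ n := Nat.cast_nonneg n
          linarith
        calc (n : ℝ) + 1 = ((n : ℝ) + 1) ^ (1 : ℝ) := (Real.rpow_one _).symm
          _ ≤ _ := Real.rpow_le_rpow_of_exponent_le h6 (by linarith)
      · simp only [if_neg h3]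
        obtain ⟨C, hC⟩ := (F j.unpair.1).first ε hε
        refine ⟨|U j.unpair.2| ^ 2 * C, fun n => ?_⟩
        rw [mul_assoc]
        refine le_trans (le_of_eq ?_) (mul_le_mul_of_nonneg_left (hC n) (sq_nonneg _))
        rw [mul_sum]
        refine sum_congr rfl fun m _ => ?_
        rw [mul_sum]
        exact sum_congr rfl fun v _ => by rw [mul_pow])
  have hx3 : ∀ i n (ε : ℝ), 0 < ε → ∃ C : ℝ, ∀ k : ℕ,
      ‖∑ m ∈ range k, ∑ v ∈ blk m, Φ i n v (x v)‖ ≤ C * ((k : ℝ) + 1) ^ (1 / 2 + ε) := by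
    intro i n ε hε
    have h1 := hx2 (Nat.pair i n) ε hε
    simpa [Nat.unpair_pair] using h1
  have hxb : ∀ v, |x v| ≤ T + 1 := by
    intro v
    obtain ⟨l, hl⟩ := hx1 v
    rw [hl]
    exact hyb v l
  have hx0 : ∀ v, N v < N0 → x v = 0 := by
    intro v hv
    obtain ⟨l, hl⟩ := hx1 v
    rw [hl]
    simp only [hy]
    rw [if_pos hv]
  have halR : ∀ t : ℝ, |t| ≤ T + 1 → ‖al t‖ ^ (2 * k) < R ∧ ‖(al t)⁻¹‖ ^ (2 * k) < R := by
    intro t ht
    obtain ⟨h1, h2⟩ := al_norm_le hT1 ht
    constructor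
    · have := pow_le_pow_left₀ (norm_nonneg _) h1 (2 * k)
      linarith
    · have := pow_le_pow_left₀ (norm_nonneg _) h2 (2 * k)
      linarith
  have hal0 : ∀ v, N v < N0 → ‖al (x v)‖ = 1 := fun v hv => by
    rw [hx0 v hv]
    exact al_norm (by rw [abs_zero]; norm_num)
  have hzp : ∀ v (n : ℕ), n ≤ 2 * k → ∀ (l : Fin (n + 1)),
      ‖al (x v) ^ ((n : ℤ) - 2 * (l : ℤ))‖ ≤ if N v < N0 then 1 else R := by
    intro v n hn l
    split_ifs with hv
    · rw [norm_zpow, hal0 v hv, one_zpow]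
    · have hl := l.2
      refine (norm_zpow_le (al_ne _) (halR _ (hxb v)).1 (halR _ (hxb v)).2 _ ?_).le
      rw [abs_le]
      push_cast
      constructor <;> omega
  have hRv : ∀ v, (if N v < N0 then (1 : ℝ) else R) ≤ R := fun v => by
    split_ifs
    · exact hR1
    · exact le_rfl
  refine ⟨fun v => al (x v), fun v => al_ne _, fun v => al_unitary _, fun v => ?_,
    fun v => al_norm_le hT1 (hxb v), fun v => ?_, fun i => ?_, fun i ε hε => ?_⟩
  · by_cases hv : N v < N0
    · beta_reduce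
      rw [norm_inv, hal0 v hv, inv_one, one_pow]
      have : (1 : ℝ) < N v := by
        have := h.two v
        exact_mod_cast (by omega : 1 < N v)
      exact ⟨this, this⟩
    · push Not at hv
      have h1 : R ≤ (N v : ℝ) := by
        have h2 : (2 : ℝ) * R ^ 2 ≤ N v := hN1.trans (by exact_mod_cast hv)
        nlinarith
      obtain ⟨h2, h3⟩ := halR _ (hxb v)
      exact ⟨lt_of_lt_of_le h2 h1, lt_of_lt_of_le h3 h1⟩
  · by_cases hv : N v < N0
    · beta_reduce
      rw [norm_inv, hal0 v hv, inv_one]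
      have : (1 : ℝ) ≤ (N v : ℝ) ^ δ := Real.one_le_rpow (h.one_le v) hδ.le
      exact ⟨this, this⟩
    · push Not at hv
      have h1 : T + 1 ≤ (N v : ℝ) ^ δ := hN2.trans
        (Real.rpow_le_rpow (Nat.cast_nonneg _) (by exact_mod_cast hv) hδ.le)
      obtain ⟨h2, h3⟩ := al_norm_le hT1 (hxb v)
      exact ⟨h2.trans h1, h3.trans h1⟩
  · -- the `L`-functions
    set bd : P → Prop := fun v => ∃ l, 3 / 4 <
      (if N v < N0 then (1 : ℝ) else R) * ‖(F i).B v l‖ * (N v : ℝ) ^ (-(1 / 2) : ℝ) with hbd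
    have hfin : {v | bd v}.Finite := by
      have hθ : 0 < 1 / 2 - (F i).θ := by have := (F i).θ_lt; linarith
      obtain ⟨N1, hN1'⟩ : ∃ N1 : ℕ, ∀ n : ℕ, N1 ≤ n → 4 / 3 * R ≤ (n : ℝ) ^ (1 / 2 - (F i).θ) := by
        have h1 := (tendsto_rpow_atTop hθ).comp (tendsto_natCast_atTop_atTop (R := ℝ))
        exact eventually_atTop.1 (h1.eventually_ge_atTop (4 / 3 * R))
      refine ((F i).bad ∪ (range N1).biUnion blk).finite_toSet.subset fun v hv => ?_
      by_contra h2
      have h3 : v ∉ (F i).bad ∧ v ∉ (range N1).biUnion blk := by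
        rw [Finset.mem_coe, Finset.mem_union] at h2
        push Not at h2
        exact h2
      have h4 : N1 ≤ N v := by
        by_contra h5
        exact h3.2 (mem_biUnion.2 ⟨N v, Finset.mem_range.2 (by omega), (h.mem _ _).2 rfl⟩)
      obtain ⟨l, hl⟩ := hv
      have h5 := (F i).bound v h3.1 l
      have h6 := hN1' (N v) h4
      have h7 : R * (N v : ℝ) ^ (F i).θ * (N v : ℝ) ^ (-(1 / 2) : ℝ) ≤ 3 / 4 := by
        have h8 : (N v : ℝ) ^ (F i).θ * (N v : ℝ) ^ (-(1 / 2) : ℝ) *
            (N v : ℝ) ^ (1 / 2 - (F i).θ) = 1 := by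
          rw [← Real.rpow_add (hNpos v), ← Real.rpow_add (hNpos v)]
          rw [show (F i).θ + -(1 / 2) + (1 / 2 - (F i).θ) = 0 by ring, Real.rpow_zero]
        have h9 : 0 < (N v : ℝ) ^ (F i).θ * (N v : ℝ) ^ (-(1 / 2) : ℝ) := by
          have := hNpos v
          positivity
        have h10 : (N v : ℝ) ^ (F i).θ * (N v : ℝ) ^ (-(1 / 2) : ℝ) * (4 / 3 * R) ≤ 1 :=
          (mul_le_mul_of_nonneg_left h6 h9.le).trans h8.le
        linarith
      have h8 : (if N v < N0 then (1 : ℝ) else R) * ‖(F i).B v l‖ * (N v : ℝ) ^ (-(1 / 2) : ℝ) ≤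
          R * (N v : ℝ) ^ (F i).θ * (N v : ℝ) ^ (-(1 / 2) : ℝ) := by
        refine mul_le_mul_of_nonneg_right ?_ (by positivity)
        exact mul_le_mul (hRv v) h5 (norm_nonneg _) (by linarith)
      linarith
    refine ⟨hfin.toFinset, fun h1 => ?_, fun S hS n hn1 hn2 => ?_⟩
    · rw [Set.Finite.toFinset_eq_empty, Set.eq_empty_iff_forall_notMem]
      rintro v ⟨l, hl⟩
      have h2 := h1 v l
      have hp : (0 : ℝ) < (N v : ℝ) ^ (-(1 / 2) : ℝ) := Real.rpow_pos_of_pos (hNpos v) _
      have hsq : ((N v : ℝ) ^ (-(1 / 2) : ℝ)) ^ 2 = (N v : ℝ)⁻¹ := by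
        rw [← Real.rpow_natCast, ← Real.rpow_mul (hNpos v).le, ← Real.rpow_neg_one]
        norm_num
      by_cases hv : N v < N0
      · rw [if_pos hv, one_mul] at hl
        have h3 : ‖(F i).B v l‖ * (N v : ℝ) ^ (-(1 / 2) : ℝ) ≤ (N v : ℝ) ^ (-(1 / 2) : ℝ) :=
          mul_le_of_le_one_left hp.le h2
        have h4 : (N v : ℝ) ^ (-(1 / 2) : ℝ) ≤ 3 / 4 := by
          refine le_of_sq_le_sq ?_ (by norm_num)
          rw [hsq]
          have h5 : (2 : ℝ) ≤ N v := by exact_mod_cast h.two v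
          have h6 : (N v : ℝ)⁻¹ ≤ 2⁻¹ := inv_anti₀ (by norm_num) h5
          norm_num at h6 ⊢
          linarith
        linarith
      · rw [if_neg hv] at hl
        push Not at hv
        have h3 : R * ‖(F i).B v l‖ * (N v : ℝ) ^ (-(1 / 2) : ℝ) ≤
            R * (N v : ℝ) ^ (-(1 / 2) : ℝ) := by
          refine mul_le_mul_of_nonneg_right ?_ hp.le
          exact mul_le_of_le_one_right (by linarith) h2
        have h4 : R * (N v : ℝ) ^ (-(1 / 2) : ℝ) ≤ 3 / 4 := by
          refine le_of_sq_le_sq ?_ (by norm_num)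
          rw [mul_pow, hsq]
          have h5 : (2 : ℝ) * R ^ 2 ≤ N v := hN1.trans (by exact_mod_cast hv)
          rw [← div_eq_mul_inv, div_le_iff₀ (hNpos v)]
          nlinarith
        linarith
    · refine h.sym n (fun v => al (x v)) x (fun v => al_ne _) (fun v => al_trace _) (F i).B
        (F i).β R (F i).β_ge (F i).β_le (fun v l => (hzp v n hn2 l).trans (hRv v))
        (F i).second (F i).first ?_ S ?_
      · intro ε hε
        obtain ⟨C, hC⟩ := hx3 i n ε hε
        set g : P → ℂ := fun v => (u n (x v) : ℂ) * tr i v with hg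
        set K0 : ℝ := ∑ m ∈ range N0, ∑ v ∈ blk m, ‖g v‖ with hK0
        refine ⟨C + K0, fun n' => ?_⟩
        have e1 : ∀ v, g v = Φ i n v (x v) + if N v < N0 then g v else 0 := by
          intro v
          simp only [hΦ, hg]
          rw [if_neg (show ¬ n = 0 by omega), if_pos hn2]
          split_ifs <;> simp
        have e2 : ∑ m ∈ range n', ∑ v ∈ blk m, g v =
            ∑ m ∈ range n', ∑ v ∈ blk m, Φ i n v (x v) +
            ∑ m ∈ range n', ∑ v ∈ blk m, (if N v < N0 then g v else 0) := by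
          rw [← sum_add_distrib]
          refine sum_congr rfl fun m _ => ?_
          rw [← sum_add_distrib]
          exact sum_congr rfl fun v _ => e1 v
        have e3 : ‖∑ m ∈ range n', ∑ v ∈ blk m, (if N v < N0 then g v else 0)‖ ≤ K0 := by
          refine (norm_sum_le _ _).trans ?_
          have e4 : ∀ m ∈ range n', ‖∑ v ∈ blk m, (if N v < N0 then g v else 0)‖ ≤
              if m < N0 then ∑ v ∈ blk m, ‖g v‖ else 0 := by
            intro m _
            split_ifs with hm
            · refine (norm_sum_le _ _).trans (sum_le_sum fun v hv => ?_)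
              rw [(h.mem m v).1 hv, if_pos hm]
            · rw [sum_eq_zero fun v hv => by rw [(h.mem m v).1 hv, if_neg hm], norm_zero]
          refine (sum_le_sum e4).trans ?_
          rw [← sum_filter]
          refine sum_le_sum_of_subset_of_nonneg (fun m hm => ?_)
            fun m _ _ => sum_nonneg fun v _ => norm_nonneg _
          exact Finset.mem_range.2 (mem_filter.1 hm).2
        have e5 : (1 : ℝ) ≤ ((n' : ℝ) + 1) ^ (1 / 2 + ε) :=
          Real.one_le_rpow (by have : (0 : ℝ) ≤ n' := Nat.cast_nonneg n'; linarith) (by linarith)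
        have hK00 : 0 ≤ K0 := sum_nonneg fun m _ => sum_nonneg fun v _ => norm_nonneg _
        rw [e2, add_mul]
        exact (norm_add_le _ _).trans (add_le_add (hC n')
          (e3.trans (le_mul_of_one_le_right hK00 e5)))
      · intro v hv l j
        have h1 : ¬ bd v := fun h2 => hv (hS (hfin.mem_toFinset.2 h2))
        simp only [hbd] at h1
        push Not at h1
        refine le_trans ?_ (h1 j)
        rw [norm_mul]
        refine mul_le_mul_of_nonneg_right ?_ (by positivity)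
        exact mul_le_mul_of_nonneg_right (hzp v n hn2 l) (norm_nonneg _)
  · -- the density
    obtain ⟨C, hC⟩ := hx3 i 0 ε hε
    obtain ⟨L, hL0, hL⟩ := W_lip k T hT
    obtain ⟨Z, hZ0, hZ⟩ := h.sum_inv
    set f : P → ℝ := fun v => if v ∈ Q i ∧ ‖al (x v)‖ ≠ 1 ∧ T ≤ ‖al (x v) + (al (x v))⁻¹‖
      then (1 : ℝ) else 0 with hf
    set q : P → ℝ := fun v => if v ∈ Q i then (1 : ℝ) else 0 with hq
    have hEb : ∀ t : ℝ, (‖al t‖ ≠ 1 ∧ T ≤ ‖al t + (al t)⁻¹‖) ↔ big t := by
      intro t
      simp only [hbig]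
      rw [al_trace, Complex.norm_real, Real.norm_eq_abs]
      constructor
      · rintro ⟨h1, h2⟩
        refine ⟨?_, h2⟩
        by_contra h3
        exact h1 (al_norm (not_lt.1 h3))
      · rintro ⟨h1, h2⟩
        exact ⟨al_norm_ne (not_le.2 h1), h2⟩
    set g1 : P → ℝ := fun v => if N v < N0 then f v - 1 / W k T * q v else 0 with hg1
    set g2 : P → ℝ := fun v => if N v < N0 then 0 else q v * (1 / W k (a v) - 1 / W k T) with hg2
    have e1 : ∀ v, f v - 1 / W k T * q v = (Φ i 0 v (x v)).re + g1 v + g2 v := by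
      intro v
      simp only [hΦ, hg1, hg2, if_true]
      by_cases hv : N v < N0
      · simp [hv]
      · simp only [if_neg hv]
        by_cases hvQ : v ∈ Q i
        · simp only [hf, hq, if_pos hvQ, hEb]
          by_cases hb : big (x v)
          · simp only [hb, and_true, hvQ, if_true, Complex.ofReal_re]
            ring
          · simp only [hb, and_false, if_false, Complex.ofReal_re]
            ring
        · simp [hf, hq, hvQ]
    have e2 : ∀ n : ℕ, ∑ m ∈ range n, ∑ v ∈ blk m, f v -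
        1 / W k T * ∑ m ∈ range n, ∑ v ∈ blk m, q v =
        (∑ m ∈ range n, ∑ v ∈ blk m, Φ i 0 v (x v)).re + ∑ m ∈ range n, ∑ v ∈ blk m, g1 v +
          ∑ m ∈ range n, ∑ v ∈ blk m, g2 v := by
      intro n
      rw [mul_sum, ← sum_sub_distrib, Complex.re_sum, ← sum_add_distrib, ← sum_add_distrib]
      refine sum_congr rfl fun m _ => ?_
      rw [mul_sum, ← sum_sub_distrib, Complex.re_sum, ← sum_add_distrib, ← sum_add_distrib]
      exact sum_congr rfl fun v _ => e1 v
    set K0 : ℝ := ∑ m ∈ range N0, ∑ v ∈ blk m, |g1 v| with hK0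
    have hK00 : 0 ≤ K0 := sum_nonneg fun m _ => sum_nonneg fun v _ => abs_nonneg _
    have e3 : ∀ n : ℕ, |∑ m ∈ range n, ∑ v ∈ blk m, g1 v| ≤ K0 := by
      intro n
      refine (abs_sum_le_sum_abs _ _).trans ?_
      have e4 : ∀ m ∈ range n, |∑ v ∈ blk m, g1 v| ≤
          if m < N0 then ∑ v ∈ blk m, |g1 v| else 0 := by
        intro m _
        split_ifs with hm
        · exact abs_sum_le_sum_abs _ _
        · rw [sum_eq_zero fun v hv => by
            simp only [hg1]
            rw [(h.mem m v).1 hv, if_neg hm], abs_zero]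
      refine (sum_le_sum e4).trans ?_
      rw [← sum_filter]
      refine sum_le_sum_of_subset_of_nonneg (fun m hm => ?_)
        fun m _ _ => sum_nonneg fun v _ => abs_nonneg _
      exact Finset.mem_range.2 (mem_filter.1 hm).2
    have e5 : ∀ v, |g2 v| ≤ L * (1 / (N v : ℝ)) := by
      intro v
      have h1 := hL (a v) (ha1 v).le (ha2 v)
      have h2 : a v - T = 1 / (N v : ℝ) := by
        simp only [ha]
        ring
      rw [h2] at h1
      have h3 : 0 ≤ L * (1 / (N v : ℝ)) := (abs_nonneg _).trans h1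
      simp only [hg2, hq]
      split_ifs
      · simpa using h3
      · rw [one_mul]; exact h1
      · simpa using h3
    have e6 : ∀ n : ℕ, |∑ m ∈ range n, ∑ v ∈ blk m, g2 v| ≤ L * Z * ((n : ℝ) + 1) ^ (1 / 2 : ℝ) := by
      intro n
      calc _ ≤ ∑ m ∈ range n, ∑ v ∈ blk m, L * (1 / (N v : ℝ)) := by
            refine (abs_sum_le_sum_abs _ _).trans (sum_le_sum fun m _ => ?_)
            exact (abs_sum_le_sum_abs _ _).trans (sum_le_sum fun v _ => e5 v)
        _ = L * ∑ m ∈ range n, ∑ v ∈ blk m, 1 / (N v : ℝ) := by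
            rw [mul_sum]
            exact sum_congr rfl fun m _ => by rw [mul_sum]
        _ ≤ _ := by
            rw [mul_assoc]
            exact mul_le_mul_of_nonneg_left (hZ n) hL0
    refine ⟨C + K0 + L * Z, fun n => ?_⟩
    have hn1 : (1 : ℝ) ≤ (n : ℝ) + 1 := by
      have : (0 : ℝ) ≤ n := Nat.cast_nonneg n
      linarith
    have e7 : (1 : ℝ) ≤ ((n : ℝ) + 1) ^ (1 / 2 + ε) := Real.one_le_rpow hn1 (by linarith)
    have e8 : ((n : ℝ) + 1) ^ (1 / 2 : ℝ) ≤ ((n : ℝ) + 1) ^ (1 / 2 + ε) :=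
      Real.rpow_le_rpow_of_exponent_le hn1 (by linarith)
    have e9 := (Complex.abs_re_le_norm _).trans (hC n)
    have e10 := e3 n
    have e11 := e6 n
    rw [e2 n]
    calc _ ≤ |(∑ m ∈ range n, ∑ v ∈ blk m, Φ i 0 v (x v)).re| +
          |∑ m ∈ range n, ∑ v ∈ blk m, g1 v| + |∑ m ∈ range n, ∑ v ∈ blk m, g2 v| := by
          exact (abs_add_le _ _).trans (by
            have := abs_add_le (∑ m ∈ range n, ∑ v ∈ blk m, Φ i 0 v (x v)).re
              (∑ m ∈ range n, ∑ v ∈ blk m, g1 v)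
            linarith)
      _ ≤ _ := by
          have e12 : L * Z * ((n : ℝ) + 1) ^ (1 / 2 : ℝ) ≤ L * Z * ((n : ℝ) + 1) ^ (1 / 2 + ε) :=
            mul_le_mul_of_nonneg_left e8 (mul_nonneg hL0 hZ0)
          nlinarith

end Pool.Agent.H414.V
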