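import Pool.Agent.H414.V.Eul

/-!
The finite places of a number field.
-/

set_option autoImplicit false

namespace Pool.Agent.H414.V

open Finset Filter Topology NumberField IsDedekindDomain

variable (K : Type*) [Field K] [NumberField K]

/-- The finite places of `K`. -/
abbrev Pl := HeightOneSpectrum (𝓞 K)

variable {K}

/-- The absolute norm of a finite place. -/
noncomputable def nrm (v : Pl K) : ℕ := Ideal.absNorm v.asIdeal

theorem nrm_two (v : Pl K) : 2 ≤ nrm v := by
  have h1 : Ideal.absNorm v.asIdeal ≠ 0 := by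
    rw [Ne, Ideal.absNorm_eq_zero_iff]
    exact v.ne_bot
  have h2 : Ideal.absNorm v.asIdeal ≠ 1 := by
    rw [Ne, Ideal.absNorm_eq_one_iff]
    exact v.isPrime.ne_top
  rw [nrm]
  omega

theorem inj : Function.Injective (fun v : Pl K => v.asIdeal) := fun _ _ h =>
  HeightOneSpectrum.ext h

theorem fin_eq (n : ℕ) : {v : Pl K | nrm v = n}.Finite :=
  (Ideal.finite_setOfPred_absNorm_le (S := 𝓞 K) n).preimage inj.injOn |>.subset fun v hv => by
    have h : nrm v = n := hv
    show Ideal.absNorm v.asIdeal ≤ n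
    rw [← h]
    exact le_rfl

/-- The finite places with norm `n`. -/
noncomputable def blkK (n : ℕ) : Finset (Pl K) := (fin_eq n).toFinset

theorem mem_blkK (n : ℕ) (v : Pl K) : v ∈ blkK n ↔ nrm v = n := by
  rw [blkK, Set.Finite.mem_toFinset]
  rfl

theorem count : ∃ C : ℝ, ∀ n : ℕ, ∑ m ∈ range n, ((blkK (K := K) m).card : ℝ) ≤
    C * ((n : ℝ) + 1) := by
  classical
  -- the number of the ideals with norm at most `n`
  have h1 := (NumberField.Ideal.tendsto_norm_le_div_atTop K).comp
    (tendsto_natCast_atTop_atTop (R := ℝ))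
  obtain ⟨C, hC⟩ := h1.bddAbove_range
  have hfin : ∀ n : ℕ, Finite {I : Ideal (𝓞 K) // Ideal.absNorm I ≤ n} := fun n =>
    (Ideal.finite_setOfPred_absNorm_le (S := 𝓞 K) n).to_subtype
  have h2 : ∀ n : ℕ, ∑ m ∈ range n, ((blkK (K := K) m).card : ℝ) ≤
      (Nat.card {I : Ideal (𝓞 K) // (Ideal.absNorm I : ℝ) ≤ (n : ℝ)} : ℝ) := by
    intro n
    have e1 : ∑ m ∈ range n, (blkK (K := K) m).card =
        ((range n).biUnion (blkK (K := K))).card := by
      rw [card_biUnion]
      intro a _ b _ hab
      rw [Function.onFun, Finset.disjoint_left]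
      intro v h1 h2
      rw [mem_blkK] at h1 h2
      exact hab (h1.symm.trans h2)
    have e2 : ((range n).biUnion (blkK (K := K))).card ≤
        Nat.card {I : Ideal (𝓞 K) // (Ideal.absNorm I : ℝ) ≤ (n : ℝ)} := by
      have e3 : Nat.card {I : Ideal (𝓞 K) // (Ideal.absNorm I : ℝ) ≤ (n : ℝ)} =
          Nat.card {I : Ideal (𝓞 K) // Ideal.absNorm I ≤ n} := by
        simp only [Nat.cast_le]
      rw [e3, ← Nat.card_eq_finsetCard]
      haveI := hfin n
      refine Nat.card_le_card_of_injective (fun v => ⟨v.1.asIdeal, ?_⟩) ?_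
      · obtain ⟨m, hm, hv⟩ := mem_biUnion.1 v.2
        rw [mem_blkK] at hv
        have := Finset.mem_range.1 hm
        have h3 : Ideal.absNorm v.1.asIdeal = m := hv
        omega
      · intro v w h
        have h3 : v.1.asIdeal = w.1.asIdeal := congrArg Subtype.val h
        exact Subtype.ext (inj h3)
    exact_mod_cast e1.le.trans e2
  refine ⟨|C| + 1, fun n => ?_⟩
  rcases Nat.eq_zero_or_pos n with hn | hn
  · rw [hn]
    simp
    positivity
  · have hn' : (0 : ℝ) < n := by exact_mod_cast hn
    have h3 := hC (Set.mem_range_self n)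
    simp only [Function.comp] at h3
    rw [div_le_iff₀ hn'] at h3
    refine (h2 n).trans (h3.trans ?_)
    have h4 := le_abs_self C
    have h5 := abs_nonneg C
    nlinarith

theorem places : Places (nrm (K := K)) (blkK (K := K)) :=
  ⟨mem_blkK, nrm_two, count⟩

end Pool.Agent.H414.V
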