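import Pool.Agent.H414.V.Ser

/-!
Sums over sets with norms.
-/

set_option autoImplicit false

namespace Pool.Agent.H414.V

open Finset Filter Topology

variable {P : Type*} {N : P → ℕ} {blk : ℕ → Finset P}

/-- The set `P` with the norms `N` behaves like the set of the finite places of a global field. -/
structure Places (N : P → ℕ) (blk : ℕ → Finset P) : Prop where
  mem : ∀ n v, v ∈ blk n ↔ N v = n
  two : ∀ v, 2 ≤ N v
  count : ∃ C : ℝ, ∀ n : ℕ, ∑ m ∈ range n, ((blk m).card : ℝ) ≤ C * ((n : ℝ) + 1)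

namespace Places
variable (h : Places N blk)
include h

theorem pos (v : P) : (0 : ℝ) < N v := by
  have := h.two v
  exact_mod_cast (by omega : 0 < N v)

theorem one_le (v : P) : (1 : ℝ) ≤ N v := by
  have := h.two v
  exact_mod_cast (by omega : 1 ≤ N v)

theorem blk_zero : blk 0 = ∅ := by
  ext v
  rw [h.mem]
  have := h.two v
  simp
  omega

theorem norm_cpow (v : P) (s : ℂ) : ‖(N v : ℂ) ^ (-s)‖ = (N v : ℝ) ^ (-s.re) := by
  have := h.two v
  rw [Complex.norm_natCast_cpow_of_pos (by omega), Complex.neg_re]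

theorem summable_of_sums (f : P → ℝ) (hf : ∀ v, 0 ≤ f v) (C e r : ℝ) (he : 0 ≤ e) (her : e < r)
    (hC : ∀ n : ℕ, ∑ m ∈ range n, ∑ v ∈ blk m, f v ≤ C * ((n : ℝ) + 1) ^ e) :
    Summable fun v => f v * (N v : ℝ) ^ (-r) := by
  classical
  have hC0 : 0 ≤ C := by
    have := hC 0
    simp at this
    exact this
  set a : ℕ → ℂ := fun n => ((∑ v ∈ blk n, f v : ℝ) : ℂ) with ha
  have hna : ∀ n, ‖a n‖ = ∑ v ∈ blk n, f v := fun n => by
    simp only [ha]
    rw [Complex.norm_real, Real.norm_eq_abs, abs_of_nonneg (sum_nonneg fun v _ => hf v)]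
  have h1 : LSeriesSummable a (r : ℂ) := by
    refine LSeriesSummable_of_sum_norm_bigO (r := e) ?_ he (by simpa using her)
    refine Asymptotics.IsBigO.of_bound (C * 3 ^ e) ?_
    filter_upwards [eventually_ge_atTop 1] with n hn
    have hn' : (1 : ℝ) ≤ n := by exact_mod_cast hn
    rw [Real.norm_eq_abs, abs_of_nonneg (sum_nonneg fun k _ => norm_nonneg _), Real.norm_eq_abs,
      abs_of_nonneg (by positivity)]
    have h2 : ∑ k ∈ Icc 1 n, ‖a k‖ = ∑ k ∈ range (n + 1), ∑ v ∈ blk k, f v := by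
      rw [sum_congr rfl fun k _ => hna k]
      refine sum_subset (fun k hk => ?_) fun k hk hk' => ?_
      · simp only [Finset.mem_Icc, Finset.mem_range] at hk ⊢
        omega
      · simp only [Finset.mem_Icc, Finset.mem_range] at hk hk'
        have : k = 0 := by omega
        rw [this, h.blk_zero, sum_empty]
    rw [h2]
    refine (hC (n + 1)).trans ?_
    rw [mul_assoc, ← Real.mul_rpow (by norm_num) (by linarith)]
    refine mul_le_mul_of_nonneg_left (Real.rpow_le_rpow (by positivity) ?_ he) hC0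
    push_cast
    linarith
  have h2 : Summable fun n => ‖LSeries.term a r n‖ := h1.norm
  refine summable_of_sum_le (c := ∑' n, ‖LSeries.term a r n‖)
    (fun v => mul_nonneg (hf v) (by positivity)) fun F => ?_
  have h3 : ∑ v ∈ F, f v * (N v : ℝ) ^ (-r) ≤ ∑ n ∈ F.image N, ‖LSeries.term a r n‖ := by
    rw [← sum_fiberwise_of_maps_to (t := F.image N) (g := N) (fun v hv => mem_image_of_mem N hv)]
    refine sum_le_sum fun n hn => ?_
    obtain ⟨v0, hv0, rfl⟩ := mem_image.1 hn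
    have hn0 : N v0 ≠ 0 := by have := h.two v0; omega
    rw [LSeries.term_of_ne_zero hn0, norm_div, hna, Complex.norm_natCast_cpow_of_pos
      (by omega), Complex.ofReal_re, div_eq_mul_inv, ← Real.rpow_neg (h.pos v0).le, sum_mul]
    calc _ = ∑ v ∈ F.filter (fun v => N v = N v0), f v * (N v0 : ℝ) ^ (-r) :=
          sum_congr rfl fun v hv => by rw [(mem_filter.1 hv).2]
      _ ≤ _ := sum_le_sum_of_subset_of_nonneg (fun v hv => (h.mem _ _).2 (mem_filter.1 hv).2)
          fun v _ _ => mul_nonneg (hf v) (by positivity)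
  exact h3.trans (h2.sum_le_tsum _ fun _ _ => norm_nonneg _)

theorem summable_rpow {r : ℝ} (hr : 1 < r) : Summable fun v => (N v : ℝ) ^ (-r) := by
  obtain ⟨C, hC⟩ := h.count
  have := h.summable_of_sums (fun _ => 1) (fun _ => zero_le_one) C 1 r zero_le_one hr (by
    intro n
    rw [Real.rpow_one]
    refine le_trans (le_of_eq ?_) (hC n)
    exact sum_congr rfl fun m _ => by rw [sum_const, nsmul_eq_mul, mul_one])
  simpa using this

/-- Sums over `P` as Dirichlet series. -/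
theorem tsum_eq (φ : P → ℂ) (s : ℂ) (hs : Summable fun v => ‖φ v‖ * (N v : ℝ) ^ (-s.re)) :
    LSeriesSummable (fun n => ∑ v ∈ blk n, φ v) s ∧
    ∑' v, φ v * (N v : ℂ) ^ (-s) = LSeries (fun n => ∑ v ∈ blk n, φ v) s := by
  classical
  have h1 : Summable fun v => φ v * (N v : ℂ) ^ (-s) := by
    refine Summable.of_norm ?_
    refine hs.congr fun v => ?_
    rw [norm_mul, h.norm_cpow]
  have key : ∀ n : ℕ, ∑' b : N ⁻¹' {n}, φ b * (N b : ℂ) ^ (-s) =
      LSeries.term (fun n => ∑ v ∈ blk n, φ v) s n := by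
    intro n
    have h2 : N ⁻¹' {n} = (blk n : Set P) := by
      ext v
      simp [h.mem]
    rw [h2, Finset.tsum_subtype' (blk n) (fun v => φ v * (N v : ℂ) ^ (-s))]
    rcases Nat.eq_zero_or_pos n with hn | hn
    · rw [hn, h.blk_zero, sum_empty, LSeries.term_zero]
    · rw [LSeries.term_of_ne_zero (by omega), sum_div]
      refine sum_congr rfl fun v hv => ?_
      rw [(h.mem n v).1 hv, Complex.cpow_neg, div_eq_mul_inv]
  have h3 := h1.hasSum.tsum_fiberwise N
  have h4 := h3.congr_fun (fun n => (key n).symm)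
  exact ⟨h4.summable, h4.tsum_eq.symm⟩

end Places

/-- The Dirichlet series of a function on `P` with square root cancellation. -/
theorem Places.series (h : Places N blk) (φ : P → ℂ)
    (habs : ∀ σ : ℝ, 1 < σ → Summable fun v => ‖φ v‖ * (N v : ℝ) ^ (-σ))
    (hc : ∀ ε : ℝ, 0 < ε → ∃ C : ℝ, ∀ n : ℕ,
      ‖∑ m ∈ range n, ∑ v ∈ blk m, φ v‖ ≤ C * ((n : ℝ) + 1) ^ (1 / 2 + ε)) :
    ∃ D : ℂ → ℂ, DifferentiableOn ℂ D {s | 1 / 2 < s.re} ∧ ∀ s : ℂ, 1 < s.re →
      ∑' v, φ v * (N v : ℂ) ^ (-s) = D s := by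
  obtain ⟨D, h1, h2⟩ := dser (fun n => ∑ v ∈ blk n, φ v) (by rw [h.blk_zero, sum_empty])
    (fun s hs => (h.tsum_eq φ s (habs s.re hs)).1) hc
  exact ⟨D, h1, fun s hs => by rw [(h.tsum_eq φ s (habs s.re hs)).2, h2 s hs]⟩

/-- Absolute convergence from a mean square bound. -/
theorem Places.abs_of_sq (h : Places N blk) (φ : P → ℂ)
    (hsq : ∀ ε : ℝ, 0 < ε → ∃ C : ℝ, ∀ n : ℕ,
      ∑ m ∈ range n, ∑ v ∈ blk m, ‖φ v‖ ^ 2 ≤ C * ((n : ℝ) + 1) ^ (1 + ε)) (σ : ℝ) (hσ : 1 < σ) :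
    Summable fun v => ‖φ v‖ * (N v : ℝ) ^ (-σ) := by
  obtain ⟨C, hC⟩ := hsq ((σ - 1) / 2) (by linarith)
  have h1 := h.summable_of_sums (fun v => ‖φ v‖ ^ 2) (fun v => sq_nonneg _) C _ σ (by linarith)
    (by linarith) hC
  have h2 := h.summable_rpow hσ
  refine Summable.of_nonneg_of_le (fun v => by positivity) (fun v => ?_) (h1.add h2)
  have h3 : (0 : ℝ) ≤ (N v : ℝ) ^ (-σ) := by positivity
  nlinarith [sq_nonneg (‖φ v‖ - 1), mul_nonneg (sq_nonneg (‖φ v‖ - 1)) h3, norm_nonneg (φ v)]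

end Pool.Agent.H414.V
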