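import Mathlib

/-!
Choosing points such that countably many sums have square root cancellation.
-/

set_option autoImplicit false

namespace Pool.Agent.H414.V

open Finset ComplexConjugate

variable {P X : Type*}

theorem sq_add (a b : ℂ) : ‖a + b‖ ^ 2 = ‖a‖ ^ 2 + 2 * (conj a * b).re + ‖b‖ ^ 2 := by
  rw [← Complex.normSq_eq_norm_sq, ← Complex.normSq_eq_norm_sq, ← Complex.normSq_eq_norm_sq,
    Complex.normSq_apply, Complex.normSq_apply, Complex.normSq_apply]
  simp
  ring

theorem block (φ : ℕ → P → X → ℂ) (A : P → Set X) (M : ℕ → P → ℝ)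
    (hsel : ∀ v (c : ℕ → ℂ) (J : ℕ), ∃ x ∈ A v, ∑ j ∈ range J, (conj (c j) * φ j v x).re ≤ 0)
    (hM : ∀ j v, ∀ x ∈ A v, ‖φ j v x‖ ≤ M j v) (w : ℕ → ℝ) (hw : ∀ j, 0 ≤ w j)
    (F : Finset P) (J : ℕ) (S : ℕ → ℂ) :
    ∃ y : P → X, (∀ v, y v ∈ A v) ∧
      ∑ j ∈ range J, w j * ‖S j + ∑ v ∈ F, φ j v (y v)‖ ^ 2 ≤
        ∑ j ∈ range J, w j * ‖S j‖ ^ 2 + ∑ v ∈ F, ∑ j ∈ range J, w j * M j v ^ 2 := by
  classical
  induction F using Finset.induction_on with
  | empty =>
    choose y hy _ using fun v => hsel v 0 0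
    exact ⟨y, hy, by simp⟩
  | insert v F hv ih =>
    obtain ⟨y, hy, h1⟩ := ih
    obtain ⟨x, hx, h2⟩ := hsel v (fun j => w j * (S j + ∑ v ∈ F, φ j v (y v))) J
    refine ⟨Function.update y v x, fun u => ?_, ?_⟩
    · by_cases h : u = v
      · rw [h, Function.update_self]; exact hx
      · rw [Function.update_of_ne h]; exact hy u
    · have h3 : ∀ j, ∑ u ∈ insert v F, φ j u (Function.update y v x u) =
          ∑ u ∈ F, φ j u (y u) + φ j v x := by
        intro j
        rw [sum_insert hv, Function.update_self, add_comm]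
        congr 1
        refine sum_congr rfl fun u hu => ?_
        rw [Function.update_of_ne]
        rintro rfl
        exact hv hu
      have h4 : ∀ j, w j * ‖S j + ∑ u ∈ insert v F, φ j u (Function.update y v x u)‖ ^ 2 =
          w j * ‖S j + ∑ u ∈ F, φ j u (y u)‖ ^ 2 +
          2 * (conj (w j * (S j + ∑ v ∈ F, φ j v (y v))) * φ j v x).re +
          w j * ‖φ j v x‖ ^ 2 := by
        intro j
        rw [h3, ← add_assoc, sq_add, map_mul, Complex.conj_ofReal, mul_assoc,
          Complex.re_ofReal_mul]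
        ring
      rw [sum_congr rfl fun j _ => h4 j, sum_add_distrib, sum_add_distrib, ← mul_sum,
        sum_insert hv]
      have h5 : ∑ j ∈ range J, w j * ‖φ j v x‖ ^ 2 ≤ ∑ j ∈ range J, w j * M j v ^ 2 := by
        refine sum_le_sum fun j _ => mul_le_mul_of_nonneg_left ?_ (hw j)
        exact pow_le_pow_left₀ (norm_nonneg _) (hM j v x hx) 2
      linarith

section
variable (N : P → ℕ) (blk : ℕ → Finset P)

/-- The sum of `g` over the `v` with norm less than `n`. -/
def S (g : P → ℂ) (n : ℕ) : ℂ := ∑ m ∈ range n, ∑ v ∈ blk m, g v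

theorem S_succ (g : P → ℂ) (n : ℕ) : S blk g (n + 1) = S blk g n + ∑ v ∈ blk n, g v :=
  sum_range_succ _ _

/-- The sum over the `v` with `j < N v < n`. -/
def T (j : ℕ) (g : P → ℂ) (n : ℕ) : ℂ := ∑ m ∈ Ico (j + 1) n, ∑ v ∈ blk m, g v

theorem exists_build (Q : ℕ → (P → X) → (P → X) → Prop)
    (hQ : ∀ n x, ∃ y, Q n x y ∧ ∀ v, N v ≠ n → y v = x v)
    (hQ' : ∀ n x x' y y', (∀ v, N v < n → x v = x' v) → (∀ v, N v ≤ n → y v = y' v) → Q n x y →
      Q n x' y') [Nonempty X] : ∃ x : P → X, ∀ n, Q n x x := by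
  choose y hy hy' using hQ
  let build : ℕ → (P → X) := fun n => Nat.rec (fun _ => Classical.arbitrary X) (fun n x => y n x) n
  have hb : ∀ n, build (n + 1) = y n (build n) := fun n => rfl
  have h1 : ∀ v m, N v < m → build m v = build (N v + 1) v := by
    intro v m hm
    induction m with
    | zero => omega
    | succ m ih =>
      by_cases h : N v = m
      · rw [h]
      · rw [hb m, hy' m (build m) v h]
        exact ih (by omega)
  refine ⟨fun v => build (N v + 1) v, fun n => ?_⟩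
  refine hQ' n (build n) _ (build (n + 1)) _ (fun v hv => h1 v n hv) (fun v hv => h1 v (n + 1)
    (by omega)) ?_
  rw [hb]
  exact hy n (build n)

/-- **Selection of points.** -/
theorem select (hblk : ∀ n v, v ∈ blk n ↔ N v = n) (φ : ℕ → P → X → ℂ) (A : P → Set X)
    (M : ℕ → P → ℝ)
    (hsel : ∀ v (c : ℕ → ℂ) (J : ℕ), ∃ x ∈ A v, ∑ j ∈ range J, (conj (c j) * φ j v x).re ≤ 0)
    (hM : ∀ j v, ∀ x ∈ A v, ‖φ j v x‖ ≤ M j v)
    (hV : ∀ j, ∀ ε : ℝ, 0 < ε → ∃ C : ℝ, ∀ n : ℕ,
      ∑ m ∈ range n, ∑ v ∈ blk m, M j v ^ 2 ≤ C * ((n : ℝ) + 1) ^ (1 + ε)) [Nonempty X] :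
    ∃ x : P → X, (∀ v, x v ∈ A v) ∧ ∀ j, ∀ ε : ℝ, 0 < ε → ∃ C : ℝ, ∀ n : ℕ,
      ‖∑ m ∈ range n, ∑ v ∈ blk m, φ j v (x v)‖ ≤ C * ((n : ℝ) + 1) ^ (1 / 2 + ε) := by
  classical
  choose C hC using hV
  -- the weights
  set D : ℕ → ℝ := fun j => 1 + ∑ l ∈ range (j + 1), |C j (1 / ((l : ℝ) + 1)) (by positivity)| with hD
  have hD1 : ∀ j, 1 ≤ D j := fun j => by
    simp only [hD]
    have : 0 ≤ ∑ l ∈ range (j + 1), |C j (1 / ((l : ℝ) + 1)) (by positivity)| :=
      sum_nonneg fun _ _ => abs_nonneg _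
    linarith
  set w : ℕ → ℝ := fun j => (1 / 2) ^ j / D j with hw
  have hw0 : ∀ j, 0 < w j := fun j => by
    have := hD1 j
    simp only [hw]
    positivity
  -- the construction
  set TT : ℕ → (P → X) → ℕ → ℂ := fun j x n => T blk j (fun v => φ j v (x v)) n with hTT
  obtain ⟨x, hx⟩ := exists_build (X := X) N (fun n x y => (∀ v, N v = n → y v ∈ A v) ∧
      ∑ j ∈ range n, w j * ‖TT j x n + ∑ v ∈ blk n, φ j v (y v)‖ ^ 2 ≤
      ∑ j ∈ range n, w j * ‖TT j x n‖ ^ 2 + ∑ v ∈ blk n, ∑ j ∈ range n, w j * M j v ^ 2) (by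
    intro n x
    obtain ⟨y, hy, h⟩ := block φ A M hsel hM w (fun j => (hw0 j).le) (blk n) n (fun j => TT j x n)
    refine ⟨fun v => if N v = n then y v else x v, ⟨fun v hv => ?_, ?_⟩, fun v hv => ?_⟩
    · beta_reduce
      rw [if_pos hv]; exact hy v
    · refine le_trans (le_of_eq ?_) h
      refine sum_congr rfl fun j _ => ?_
      congr 3
      congr 1
      refine sum_congr rfl fun v hv => ?_
      beta_reduce
      rw [if_pos ((hblk n v).1 hv)]
    · exact if_neg hv) (by
    rintro n x x' y y' h1 h2 ⟨h3, h4⟩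
    have e1 : ∀ j, TT j x n = TT j x' n := by
      intro j
      simp only [hTT, T]
      refine sum_congr rfl fun m hm => sum_congr rfl fun v hv => ?_
      rw [h1 v (by rw [(hblk m v).1 hv]; exact (Finset.mem_Ico.1 hm).2)]
    refine ⟨fun v hv => ?_, ?_⟩
    · rw [← h2 v hv.le]; exact h3 v hv
    · simp only [← e1]
      refine le_trans (le_of_eq ?_) h4
      refine sum_congr rfl fun j _ => ?_
      congr 3
      congr 1
      refine sum_congr rfl fun v hv => ?_
      rw [h2 v ((hblk n v).1 hv).le])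
  -- the potential
  have hΦ : ∀ n, ∑ j ∈ range n, w j * ‖TT j x n‖ ^ 2 ≤
      ∑ m ∈ range n, ∑ v ∈ blk m, ∑ j ∈ range m, w j * M j v ^ 2 := by
    intro n
    induction n with
    | zero => simp
    | succ n ih =>
      rw [sum_range_succ, sum_range_succ (n := n)]
      have h1 : TT n x (n + 1) = 0 := by simp [hTT, T]
      have h2 : ∀ j ∈ range n, TT j x (n + 1) = TT j x n + ∑ v ∈ blk n, φ j v (x v) := by
        intro j hj
        have := Finset.mem_range.1 hj
        simp only [hTT, T]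
        exact sum_Ico_succ_top (by omega) _
      rw [h1, norm_zero, zero_pow two_ne_zero, mul_zero, add_zero,
        sum_congr rfl fun j hj => by rw [h2 j hj]]
      exact ((hx n).2).trans (by linarith)
  -- the bound of the potential
  have hbound : ∀ l : ℕ, ∃ K : ℝ, 0 ≤ K ∧ ∀ n : ℕ, ∑ j ∈ range n, w j * ‖TT j x n‖ ^ 2 ≤
      K * ((n : ℝ) + 1) ^ (1 + 1 / ((l : ℝ) + 1)) := by
    intro l
    have hl : (0 : ℝ) < 1 / ((l : ℝ) + 1) := by positivity
    refine ⟨∑ j ∈ range l, w j * |C j (1 / ((l : ℝ) + 1)) hl| + 2, by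
      have : 0 ≤ ∑ j ∈ range l, w j * |C j (1 / ((l : ℝ) + 1)) hl| :=
        sum_nonneg fun j _ => mul_nonneg (hw0 j).le (abs_nonneg _)
      linarith, fun n => ?_⟩
    refine (hΦ n).trans ?_
    have h1 : ∑ m ∈ range n, ∑ v ∈ blk m, ∑ j ∈ range m, w j * M j v ^ 2 ≤
        ∑ j ∈ range n, w j * ∑ m ∈ range n, ∑ v ∈ blk m, M j v ^ 2 := by
      calc _ ≤ ∑ m ∈ range n, ∑ v ∈ blk m, ∑ j ∈ range n, w j * M j v ^ 2 := by
            refine sum_le_sum fun m hm => sum_le_sum fun v _ => ?_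
            refine sum_le_sum_of_subset_of_nonneg ?_ fun j _ _ =>
              mul_nonneg (hw0 j).le (sq_nonneg _)
            intro j hj
            simp only [Finset.mem_range] at *
            omega
        _ = _ := by
            rw [sum_congr rfl fun m _ => sum_comm, sum_comm]
            refine sum_congr rfl fun j _ => ?_
            rw [mul_sum]
            refine sum_congr rfl fun m _ => ?_
            rw [mul_sum]
    refine h1.trans ?_
    set R : ℝ := ((n : ℝ) + 1) ^ (1 + 1 / ((l : ℝ) + 1)) with hR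
    have hR0 : 0 ≤ R := by positivity
    have h2 : ∀ j ∈ range n, w j * ∑ m ∈ range n, ∑ v ∈ blk m, M j v ^ 2 ≤
        ((if j < l then w j * |C j (1 / ((l : ℝ) + 1)) hl| else 0) + (1 / 2) ^ j) * R := by
      intro j _
      have h3 := hC j (1 / ((l : ℝ) + 1)) hl n
      by_cases hj : j < l
      · rw [if_pos hj]
        calc _ ≤ w j * (|C j (1 / ((l : ℝ) + 1)) hl| * R) := by
              refine mul_le_mul_of_nonneg_left (h3.trans ?_) (hw0 j).le
              exact mul_le_mul_of_nonneg_right (le_abs_self _) hR0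
          _ ≤ _ := by
              rw [add_mul, mul_assoc]
              have : 0 ≤ (1 / 2 : ℝ) ^ j * R := by positivity
              linarith
      · rw [if_neg hj, zero_add]
        push Not at hj
        have h4 : |C j (1 / ((l : ℝ) + 1)) hl| ≤ D j := by
          simp only [hD]
          have h5 : |C j (1 / ((l : ℝ) + 1)) hl| ≤
              ∑ l ∈ range (j + 1), |C j (1 / ((l : ℝ) + 1)) (by positivity)| :=
            single_le_sum (f := fun l : ℕ => |C j (1 / ((l : ℝ) + 1)) (by positivity)|)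
              (fun _ _ => abs_nonneg _) (Finset.mem_range.2 (by omega))
          linarith
        calc _ ≤ w j * (D j * R) := by
              refine mul_le_mul_of_nonneg_left (h3.trans ?_) (hw0 j).le
              exact mul_le_mul_of_nonneg_right ((le_abs_self _).trans h4) hR0
          _ = _ := by
              simp only [hw]
              have := hD1 j
              field_simp
    refine (sum_le_sum h2).trans ?_
    rw [← sum_mul]
    refine mul_le_mul_of_nonneg_right ?_ hR0
    rw [sum_add_distrib]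
    refine add_le_add ?_ ?_
    · rw [← sum_filter]
      refine sum_le_sum_of_subset_of_nonneg ?_ fun j _ _ => mul_nonneg (hw0 j).le (abs_nonneg _)
      intro j hj
      simp only [Finset.mem_filter, Finset.mem_range] at *
      exact hj.2
    · have h5 : HasSum (fun j : ℕ => (1 / 2 : ℝ) ^ j) 2 := hasSum_geometric_two
      exact sum_le_hasSum _ (fun j _ => by positivity) h5
  refine ⟨x, fun v => (hx (N v)).1 v rfl, fun j ε hε => ?_⟩
  obtain ⟨l, hl⟩ := exists_nat_one_div_lt (show 0 < 2 * ε by linarith)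
  obtain ⟨K, hK0, hK⟩ := hbound l
  set K1 : ℝ := ∑ m ∈ range (j + 1), ‖∑ v ∈ blk m, φ j v (x v)‖ with hK1
  have hK10 : 0 ≤ K1 := sum_nonneg fun _ _ => norm_nonneg _
  refine ⟨Real.sqrt (K / w j) + K1, fun n => ?_⟩
  have hn1 : (1 : ℝ) ≤ (n : ℝ) + 1 := by
    have : (0 : ℝ) ≤ n := Nat.cast_nonneg n
    linarith
  have hpow1 : (1 : ℝ) ≤ ((n : ℝ) + 1) ^ (1 / 2 + ε) := Real.one_le_rpow hn1 (by linarith)
  by_cases hjn : n ≤ j
  · calc _ ≤ ∑ m ∈ range n, ‖∑ v ∈ blk m, φ j v (x v)‖ := norm_sum_le _ _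
      _ ≤ K1 := sum_le_sum_of_subset_of_nonneg (by
          intro m hm
          simp only [Finset.mem_range] at *
          omega) fun _ _ _ => norm_nonneg _
      _ ≤ (Real.sqrt (K / w j) + K1) * 1 := by
          have := Real.sqrt_nonneg (K / w j)
          linarith
      _ ≤ _ := mul_le_mul_of_nonneg_left hpow1 (by positivity)
  · push Not at hjn
    have h1 : ∑ m ∈ range n, ∑ v ∈ blk m, φ j v (x v) =
        ∑ m ∈ range (j + 1), ∑ v ∈ blk m, φ j v (x v) + TT j x n := by
      simp only [hTT, T]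
      exact (sum_range_add_sum_Ico _ (by omega)).symm
    have h2 : w j * ‖TT j x n‖ ^ 2 ≤ K * ((n : ℝ) + 1) ^ (1 + 1 / ((l : ℝ) + 1)) := by
      refine le_trans ?_ (hK n)
      exact single_le_sum (f := fun j => w j * ‖TT j x n‖ ^ 2)
        (fun j _ => mul_nonneg (hw0 j).le (sq_nonneg _)) (Finset.mem_range.2 (by omega))
    have h3 : ‖TT j x n‖ ≤ Real.sqrt (K / w j) * ((n : ℝ) + 1) ^ (1 / 2 + ε) := by
      refine abs_le_of_sq_le_sq' ?_ (by positivity) |>.2
      rw [mul_pow, Real.sq_sqrt (div_nonneg hK0 (hw0 j).le), ← Real.rpow_natCast (_ ^ (1 / 2 + ε)),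
        ← Real.rpow_mul (by linarith)]
      rw [div_mul_eq_mul_div, le_div_iff₀ (hw0 j), mul_comm]
      refine h2.trans (mul_le_mul_of_nonneg_left ?_ hK0)
      refine Real.rpow_le_rpow_of_exponent_le hn1 ?_
      push_cast
      linarith
    rw [h1]
    calc _ ≤ ‖∑ m ∈ range (j + 1), ∑ v ∈ blk m, φ j v (x v)‖ + ‖TT j x n‖ := norm_add_le _ _
      _ ≤ K1 * ((n : ℝ) + 1) ^ (1 / 2 + ε) + Real.sqrt (K / w j) * ((n : ℝ) + 1) ^ (1 / 2 + ε) := by
          refine add_le_add ((norm_sum_le _ _).trans ?_) h3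
          exact le_mul_of_one_le_right hK10 hpow1
      _ = _ := by ring

end

end Pool.Agent.H414.V
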