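import Pool.Agent.H414.V.Select

/-!
Dirichlet series whose partial sums have square root cancellation are holomorphic for `Re s > 1/2`.
-/

set_option autoImplicit false

namespace Pool.Agent.H414.V

open Finset Filter Topology MeasureTheory Set Asymptotics

/-- The partial sums, as a function of a real variable. -/
noncomputable def psum (a : ℕ → ℂ) (t : ℝ) : ℂ := ∑ k ∈ Icc 1 ⌊t⌋₊, a k

theorem psum_measurable (a : ℕ → ℂ) : Measurable (psum a) :=
  (measurable_from_nat (f := fun N : ℕ => ∑ k ∈ Icc 1 N, a k)).comp Nat.measurable_floor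

theorem psum_le (a : ℕ → ℂ) (C e : ℝ) (he : 0 ≤ e) (h0 : a 0 = 0)
    (h : ∀ N : ℕ, ‖∑ n ∈ range N, a n‖ ≤ C * ((N : ℝ) + 1) ^ e) (t : ℝ) (ht : 0 ≤ t) :
    ‖psum a t‖ ≤ C * (t + 2) ^ e := by
  have hC : 0 ≤ C := by
    have := h 0
    simp at this
    exact this
  have h1 : psum a t = ∑ n ∈ range (⌊t⌋₊ + 1), a n := by
    rw [psum]
    refine Finset.sum_subset (fun k hk => ?_) fun k hk hk' => ?_
    · simp only [Finset.mem_Icc, Finset.mem_range] at hk ⊢
      omega
    · simp only [Finset.mem_Icc, Finset.mem_range] at hk hk'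
      have : k = 0 := by omega
      rw [this, h0]
  rw [h1]
  refine (h _).trans ?_
  have h2 := Nat.floor_le ht
  refine mul_le_mul_of_nonneg_left (Real.rpow_le_rpow (by positivity) ?_ he) hC
  push_cast
  linarith

theorem dser (a : ℕ → ℂ) (h0 : a 0 = 0) (hsum : ∀ s : ℂ, 1 < s.re → LSeriesSummable a s)
    (h : ∀ ε : ℝ, 0 < ε → ∃ C : ℝ, ∀ N : ℕ, ‖∑ n ∈ range N, a n‖ ≤ C * ((N : ℝ) + 1) ^ (1 / 2 + ε)) :
    ∃ D : ℂ → ℂ, DifferentiableOn ℂ D {s | 1 / 2 < s.re} ∧ ∀ s : ℂ, 1 < s.re →
      LSeries a s = D s := by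
  set g : ℝ → ℂ := (Set.Ioi (1 : ℝ)).indicator (psum a) with hg
  have hgm : Measurable g := (psum_measurable a).indicator measurableSet_Ioi
  have hgO : ∀ ε : ℝ, 0 < ε → g =O[atTop] fun t => t ^ (1 / 2 + ε) := by
    intro ε hε
    obtain ⟨C, hC⟩ := h ε hε
    have h1 : g =O[atTop] fun t : ℝ => (t + 2) ^ (1 / 2 + ε) := by
      refine IsBigO.of_bound C ?_
      filter_upwards [eventually_gt_atTop (1 : ℝ)] with t ht
      rw [hg, Set.indicator_of_mem (Set.mem_Ioi.2 ht)]
      refine (psum_le a C _ (by linarith) h0 hC t (by linarith)).trans (le_of_eq ?_)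
      rw [Real.norm_eq_abs, abs_of_nonneg (by positivity)]
    refine h1.trans (IsBigO.of_bound (3 ^ (1 / 2 + ε)) ?_)
    filter_upwards [eventually_ge_atTop (1 : ℝ)] with t ht
    rw [Real.norm_eq_abs, Real.norm_eq_abs, abs_of_nonneg (by positivity),
      abs_of_nonneg (by positivity), ← Real.mul_rpow (by norm_num) (by linarith)]
    exact Real.rpow_le_rpow (by linarith) (by linarith) (by linarith)
  have hloc : LocallyIntegrableOn g (Set.Ioi 0) := by
    obtain ⟨C, hC⟩ := h 1 one_pos
    have hC0 : 0 ≤ C := by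
      have := hC 0
      simp at this
      exact this
    refine (locallyIntegrable_iff.2 fun K hK => ?_).locallyIntegrableOn _
    obtain ⟨R, hR⟩ := hK.isBounded.subset_closedBall 0
    refine (Measure.integrableOn_of_bounded (M := C * (|R| + 2) ^ ((1 : ℝ) / 2 + 1))
      (measure_closedBall_lt_top (x := (0 : ℝ)) (r := R)).ne hgm.aestronglyMeasurable
      ?_).mono_set hR
    refine (ae_restrict_iff' measurableSet_closedBall).2 (ae_of_all _ fun t ht => ?_)
    rw [Metric.mem_closedBall, dist_zero_right, Real.norm_eq_abs] at ht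
    have hR0 : |t| ≤ |R| := ht.trans (le_abs_self _)
    by_cases h1 : 1 < t
    · rw [hg, Set.indicator_of_mem (Set.mem_Ioi.2 h1)]
      refine (psum_le a C _ (by norm_num) h0 hC t (by linarith)).trans ?_
      have := le_abs_self t
      refine mul_le_mul_of_nonneg_left (Real.rpow_le_rpow (by linarith) (by linarith)
        (by norm_num)) hC0
    · rw [hg, Set.indicator_of_notMem (by simpa using h1), norm_zero]
      positivity
  refine ⟨fun s => s * mellin g (-s), ?_, ?_⟩
  · intro s hs
    refine DifferentiableAt.differentiableWithinAt ?_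
    refine differentiableAt_id.mul ?_
    have h1 : DifferentiableAt ℂ (mellin g) (-s) := by
      have hs' : 1 / 2 < s.re := hs
      refine mellin_differentiableAt_of_isBigO_rpow (a := -(1 / 2 + (s.re - 1 / 2) / 2))
        (b := -s.re - 1) hloc ?_ ?_ ?_ ?_
      · simpa using hgO ((s.re - 1 / 2) / 2) (by linarith)
      · rw [Complex.neg_re]; linarith
      · refine IsBigO.of_bound 1 ?_
        filter_upwards [Ioo_mem_nhdsGT (show (0 : ℝ) < 1 by norm_num)] with t ht
        rw [hg, Set.indicator_of_notMem (by simpa using ht.2.le), norm_zero]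
        positivity
      · rw [Complex.neg_re]; linarith
    exact h1.comp s differentiableAt_id.neg
  · intro s hs
    have hO : (fun n : ℕ => ∑ k ∈ Icc 1 n, a k) =O[atTop] fun n : ℕ => (n : ℝ) ^ (1 : ℝ) := by
      have := (hgO (1 / 2) (by norm_num)).comp_tendsto tendsto_natCast_atTop_atTop
      refine (this.congr' ?_ ?_)
      · filter_upwards [eventually_gt_atTop 1] with n hn
        have hn' : (1 : ℝ) < n := by exact_mod_cast hn
        simp [hg, psum, Function.comp, hn]
      · refine Eventually.of_forall fun n => ?_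
        simp only [Function.comp]
        norm_num
    rw [LSeries_eq_mul_integral a (by norm_num) hs (hsum s hs) hO]
    congr 1
    rw [mellin, ← integral_indicator measurableSet_Ioi, ← integral_indicator measurableSet_Ioi]
    congr 1
    funext t
    by_cases h1 : 1 < t
    · have h2 : t ∈ Set.Ioi (1 : ℝ) := h1
      have h3 : t ∈ Set.Ioi (0 : ℝ) := by
        rw [Set.mem_Ioi]; linarith
      rw [Set.indicator_of_mem h2, Set.indicator_of_mem h3, hg, Set.indicator_of_mem h2, psum,
        smul_eq_mul, mul_comm]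
      congr 2
      ring
    · have h2 : t ∉ Set.Ioi (1 : ℝ) := h1
      rw [Set.indicator_of_notMem h2]
      by_cases h3 : t ∈ Set.Ioi (0 : ℝ)
      · rw [Set.indicator_of_mem h3, hg, Set.indicator_of_notMem h2, smul_zero]
      · rw [Set.indicator_of_notMem h3]

end Pool.Agent.H414.V
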