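import Pool.Agent.H414.V.Up

/-!
Systems of Satake parameters with given `L`-functions.
-/

set_option autoImplicit false

namespace Pool.Agent.H414.V

open Finset Filter Topology ComplexConjugate Pool.Agent.H414.GRC

variable {P : Type*} {N : P → ℕ} {blk : ℕ → Finset P}

/-- Selection from laws with finitely many atoms. -/
theorem Places.atoms (h : Places N blk) {X : Type*} [Nonempty X] {M : ℕ} (lam : P → Fin M → X)
    (w : P → Fin M → ℝ) (hw : ∀ v l, 0 ≤ w v l) (hw1 : ∀ v, ∑ l, w v l = 1) (φ : ℕ → P → X → ℂ)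
    (hφ : ∀ j v, ∑ l, (w v l : ℂ) * φ j v (lam v l) = 0) (B : ℕ → P → ℝ)
    (hB : ∀ j v l, ‖φ j v (lam v l)‖ ≤ B j v)
    (hB2 : ∀ j (ε : ℝ), 0 < ε → ∃ C : ℝ, ∀ n : ℕ,
      ∑ m ∈ range n, ∑ v ∈ blk m, B j v ^ 2 ≤ C * ((n : ℝ) + 1) ^ (1 + ε)) :
    ∃ x : P → X, (∀ v, ∃ l, x v = lam v l) ∧ ∀ j (ε : ℝ), 0 < ε → ∃ C : ℝ, ∀ n : ℕ,
      ‖∑ m ∈ range n, ∑ v ∈ blk m, φ j v (x v)‖ ≤ C * ((n : ℝ) + 1) ^ (1 / 2 + ε) := by
  have hsel : ∀ v (c : ℕ → ℂ) (J : ℕ), ∃ x ∈ Set.range (lam v),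
      ∑ j ∈ range J, (conj (c j) * φ j v x).re ≤ 0 := by
    intro v c J
    by_contra hcon
    push Not at hcon
    have h1 : ∑ l, w v l * ∑ j ∈ range J, (conj (c j) * φ j v (lam v l)).re = 0 := by
      have h2 : ∀ l, w v l * ∑ j ∈ range J, (conj (c j) * φ j v (lam v l)).re =
          ∑ j ∈ range J, (conj (c j) * ((w v l : ℂ) * φ j v (lam v l))).re := by
        intro l
        rw [mul_sum]
        refine sum_congr rfl fun j _ => ?_
        rw [← Complex.re_ofReal_mul]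
        congr 1
        ring
      rw [Fintype.sum_congr _ _ h2, sum_comm]
      refine sum_eq_zero fun j _ => ?_
      rw [← Complex.re_sum, ← mul_sum, hφ, mul_zero, Complex.zero_re]
    have h3 : ∃ l, 0 < w v l := by
      by_contra h4
      push Not at h4
      have h5 : ∑ l, w v l ≤ 0 := sum_nonpos fun l _ => h4 l
      rw [hw1] at h5
      linarith
    obtain ⟨l, hl⟩ := h3
    have h4 : 0 < ∑ l, w v l * ∑ j ∈ range J, (conj (c j) * φ j v (lam v l)).re := by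
      refine sum_pos' (fun l _ => mul_nonneg (hw v l) (hcon _ ⟨l, rfl⟩).le) ⟨l, mem_univ l, ?_⟩
      exact mul_pos hl (hcon _ ⟨l, rfl⟩)
    linarith
  obtain ⟨x, h1, h2⟩ := select N blk h.mem φ (fun v => Set.range (lam v)) B hsel (fun j v x hx => by
    obtain ⟨l, rfl⟩ := hx
    exact hB j v l) hB2
  refine ⟨x, fun v => ?_, h2⟩
  obtain ⟨l, hl⟩ := h1 v
  exact ⟨l, hl.symm⟩

open Classical in
/-- The `L`-function of `Sym^n ⊗ B`. -/
theorem Places.sym (h : Places N blk) (n : ℕ) (α : P → ℂ) (x : P → ℝ) (hα : ∀ v, α v ≠ 0)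
    (hx : ∀ v, α v + (α v)⁻¹ = x v) {m : ℕ} (B : P → Fin m → ℂ) (β R : ℝ) (hβ : 1 / 2 ≤ β)
    (hβ1 : β ≤ 1)
    (hR : ∀ v (l : Fin (n + 1)), ‖α v ^ ((n : ℤ) - 2 * (l : ℤ))‖ ≤ R)
    (h2 : ∀ σ : ℝ, β < σ → ∀ j, Summable fun v => ‖B v j‖ ^ 2 * (N v : ℝ) ^ (-(2 * σ)))
    (h1 : ∀ ε : ℝ, 0 < ε → ∃ C : ℝ, ∀ n : ℕ,
      ∑ m ∈ range n, ∑ v ∈ blk m, ‖∑ j, B v j‖ ^ 2 ≤ C * ((n : ℝ) + 1) ^ (1 + ε))
    (hc : ∀ ε : ℝ, 0 < ε → ∃ C : ℝ, ∀ k : ℕ,
      ‖∑ m ∈ range k, ∑ v ∈ blk m, (u n (x v) : ℂ) * ∑ j, B v j‖ ≤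
        C * ((k : ℝ) + 1) ^ (1 / 2 + ε))
    (S : Finset P) (hS : ∀ v ∉ S, ∀ (l : Fin (n + 1)) j,
      ‖α v ^ ((n : ℤ) - 2 * (l : ℤ)) * B v j‖ * (N v : ℝ) ^ (-(1 / 2) : ℝ) ≤ 3 / 4) :
    ∃ g : ℂ → ℂ, DifferentiableOn ℂ g {s | β < s.re} ∧ ∀ s : ℂ, 1 < s.re →
      HasProd (fun v => if v ∈ S then 1 else
        ∏ j, symFactor n (α v) (B v j * (N v : ℂ) ^ (-s))) (Complex.exp (g s)) := by
  have hsum : ∀ v, ∑ l : Fin (n + 1), α v ^ ((n : ℤ) - 2 * (l : ℤ)) = (u n (x v) : ℂ) := by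
    intro v
    rw [← sum_zpow (α v) (hα v) (x v) (hx v) n,
      ← Fin.sum_univ_eq_sum_range (fun l => α v ^ ((n : ℤ) - 2 * (l : ℤ)))]
  set B' : P → Fin (n + 1) × Fin m → ℂ := fun v i =>
    if v ∈ S then 0 else α v ^ ((n : ℤ) - 2 * (i.1 : ℤ)) * B v i.2 with hB'
  set φ : P → ℂ := fun v => if v ∈ S then 0 else (u n (x v) : ℂ) * ∑ j, B v j with hφ
  have hR0 : 0 ≤ R ∨ IsEmpty P := by
    rcases isEmpty_or_nonempty P with h3 | ⟨⟨v⟩⟩
    · exact Or.inr h3
    · exact Or.inl ((norm_nonneg _).trans (hR v 0))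
  have hu : ∀ v, ‖(u n (x v) : ℂ)‖ ≤ (n + 1) * R := by
    intro v
    rw [← hsum v]
    refine (norm_sum_le _ _).trans ?_
    refine (sum_le_sum fun l _ => hR v l).trans (le_of_eq ?_)
    rw [sum_const, card_univ, Fintype.card_fin, nsmul_eq_mul]
    push_cast
    ring
  have hBs : ∀ v (s : ℂ), ∑ i, B' v i * (N v : ℂ) ^ (-s) = φ v * (N v : ℂ) ^ (-s) := by
    intro v s
    rw [← sum_mul]
    congr 1
    simp only [hB', hφ]
    by_cases hv : v ∈ S
    · simp [hv]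
    · simp only [if_neg hv]
      rw [Fintype.sum_prod_type, ← hsum v, sum_mul]
      refine sum_congr rfl fun l _ => ?_
      rw [mul_sum]
  have hφle : ∀ v, ‖φ v‖ ≤ ‖(u n (x v) : ℂ) * ∑ j, B v j‖ := by
    intro v
    simp only [hφ]
    split_ifs
    · rw [norm_zero]; exact norm_nonneg _
    · exact le_rfl
  have habs : ∀ σ : ℝ, 1 < σ → Summable fun v => ‖φ v‖ * (N v : ℝ) ^ (-σ) := by
    refine h.abs_of_sq φ fun ε hε => ?_
    obtain ⟨C, hC⟩ := h1 ε hε
    refine ⟨((n + 1) * R) ^ 2 * C, fun k => ?_⟩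
    rw [mul_assoc]
    refine le_trans ?_ (mul_le_mul_of_nonneg_left (hC k) (sq_nonneg _))
    rw [mul_sum]
    refine sum_le_sum fun m _ => ?_
    rw [mul_sum]
    refine sum_le_sum fun v _ => ?_
    calc ‖φ v‖ ^ 2 ≤ ‖(u n (x v) : ℂ) * ∑ j, B v j‖ ^ 2 :=
          pow_le_pow_left₀ (norm_nonneg _) (hφle v) 2
      _ = ‖(u n (x v) : ℂ)‖ ^ 2 * ‖∑ j, B v j‖ ^ 2 := by rw [norm_mul, mul_pow]
      _ ≤ _ := mul_le_mul_of_nonneg_right (pow_le_pow_left₀ (norm_nonneg _) (hu v) 2)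
          (sq_nonneg _)
  obtain ⟨D, hD1, hD2⟩ := h.series φ habs (fun ε hε => by
    obtain ⟨C, hC⟩ := hc ε hε
    set g : P → ℂ := fun v => (u n (x v) : ℂ) * ∑ j, B v j with hg
    refine ⟨C + ∑ v ∈ S, ‖g v‖, fun k => ?_⟩
    have e1 : ∑ m ∈ range k, ∑ v ∈ blk m, φ v = ∑ m ∈ range k, ∑ v ∈ blk m, g v -
        ∑ v ∈ S.filter (fun v => N v < k), g v := by
      have e2 : ∀ v, φ v = g v - if v ∈ S then g v else 0 := by
        intro v
        simp only [hφ, hg]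
        split_ifs <;> ring
      have e3 : ∑ m ∈ range k, ∑ v ∈ blk m, g v - ∑ m ∈ range k, ∑ v ∈ blk m, φ v =
          ∑ v ∈ S.filter (fun v => N v < k), g v := by
        rw [← sum_sub_distrib]
        have e4 : ∀ m ∈ range k, ∑ v ∈ blk m, g v - ∑ v ∈ blk m, φ v =
            ∑ v ∈ (S.filter (fun v => N v < k)).filter (fun v => N v = m), g v := by
          intro m hm
          rw [← sum_sub_distrib]
          have e5 : (S.filter (fun v => N v < k)).filter (fun v => N v = m) =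
              (blk m).filter (fun v => v ∈ S) := by
            ext v
            have := Finset.mem_range.1 hm
            simp only [mem_filter, h.mem]
            constructor
            · rintro ⟨⟨a1, a2⟩, a3⟩
              exact ⟨a3, a1⟩
            · rintro ⟨a3, a1⟩
              exact ⟨⟨a1, by omega⟩, a3⟩
          rw [e5, sum_filter]
          refine sum_congr rfl fun v _ => ?_
          rw [e2 v]
          ring
        rw [sum_congr rfl e4]
        exact sum_fiberwise_of_maps_to (fun v hv => Finset.mem_range.2 (mem_filter.1 hv).2) _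
      rw [← e3]
      ring
    rw [e1]
    refine (norm_sub_le _ _).trans ?_
    rw [add_mul]
    refine add_le_add (hC k) ?_
    have e6 : ‖∑ v ∈ S.filter (fun v => N v < k), g v‖ ≤ ∑ v ∈ S, ‖g v‖ :=
      (norm_sum_le _ _).trans (sum_le_sum_of_subset_of_nonneg (filter_subset _ _)
        fun _ _ _ => norm_nonneg _)
    have e7 : (1 : ℝ) ≤ ((k : ℝ) + 1) ^ (1 / 2 + ε) :=
      Real.one_le_rpow (by have : (0 : ℝ) ≤ k := Nat.cast_nonneg k; linarith) (by linarith)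
    calc _ ≤ ∑ v ∈ S, ‖g v‖ := e6
      _ ≤ _ := le_mul_of_one_le_right (sum_nonneg fun _ _ => norm_nonneg _) e7)
  obtain ⟨g, hg1, hg2⟩ := h.euler B' β hβ (fun v i => by
    simp only [hB']
    split_ifs with hv
    · rw [norm_zero, zero_mul]; norm_num
    · exact hS v hv i.1 i.2) (fun σ hσ i => by
    refine Summable.of_nonneg_of_le (fun v => by positivity) (fun v => ?_)
      ((h2 σ hσ i.2).mul_left (R ^ 2))
    simp only [hB']
    have e8 : (0 : ℝ) ≤ (N v : ℝ) ^ (-(2 * σ)) := by positivity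
    rw [← mul_assoc]
    refine mul_le_mul_of_nonneg_right ?_ e8
    split_ifs
    · rw [norm_zero]
      exact (by positivity : (0 : ℝ) ≤ R ^ 2 * ‖B v i.2‖ ^ 2) |> fun h => by simpa using h
    · rw [norm_mul, mul_pow]
      exact mul_le_mul_of_nonneg_right (pow_le_pow_left₀ (norm_nonneg _) (hR v i.1) 2)
        (sq_nonneg _))
  refine ⟨fun s => D s + g s, fun s hs => ?_, fun s hs => ?_⟩
  · have hs' : β < s.re := hs
    have hopen : IsOpen {z : ℂ | 1 / 2 < z.re} := isOpen_lt continuous_const Complex.continuous_re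
    have hopen2 : IsOpen {z : ℂ | β < z.re} := isOpen_lt continuous_const Complex.continuous_re
    have e9 : DifferentiableAt ℂ D s := hD1.differentiableAt (hopen.mem_nhds (by
      show 1 / 2 < s.re
      linarith))
    exact (e9.add (hg1.differentiableAt (hopen2.mem_nhds hs'))).differentiableWithinAt
  · have hβs : β < s.re := by linarith
    have e10 : Summable fun v => ∑ i, B' v i * (N v : ℂ) ^ (-s) := by
      refine Summable.of_norm ?_
      refine (habs s.re hs).congr fun v => ?_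
      rw [hBs, norm_mul, h.norm_cpow]
    have e12 := hg2 s hβs e10
    simp only [hBs, hD2 s hs] at e12
    refine e12.congr_fun ?_ |> fun h => h
    intro v
    simp only [hB']
    by_cases hv : v ∈ S
    · simp [hv]
    · simp only [if_neg hv]
      rw [Fintype.prod_prod_type, Finset.prod_comm]
      refine prod_congr rfl fun j _ => ?_
      rw [symFactor]
      refine prod_congr rfl fun l _ => ?_
      rw [mul_assoc]

end Pool.Agent.H414.V
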