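import Pool.Agent.H414.V.NF
import Pool.Agent.H414.GRC.Upper

/-!
The upper bound for the density of the places with a large trace.
-/

set_option autoImplicit false

namespace Pool.Agent.H414.V

open Finset Filter Topology Pool.Agent.H414.GRC

variable {P : Type*} {N : P → ℕ} {blk : ℕ → Finset P}

theorem even_lin (k : ℕ) (c d : ℕ → ℝ) (hc : ∀ i, (k + i) % 2 ≠ 0 → c i = 0)
    (hd : ∀ x, (∑ i ∈ range (k + 1), c i * u i x) ^ 2 =
      ∑ n ∈ range (2 * k + 1), d n * u n x) (x : ℝ) :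
    (∑ i ∈ range (k + 1), c i * u i x) ^ 2 =
      ∑ n ∈ range (2 * k + 1), (if n % 2 = 0 then d n else 0) * u n x := by
  have h1 : ∑ i ∈ range (k + 1), c i * u i (-x) =
      (-1) ^ k * ∑ i ∈ range (k + 1), c i * u i x := by
    rw [mul_sum]
    refine sum_congr rfl fun i _ => ?_
    by_cases h : (k + i) % 2 = 0
    · rw [u_neg]
      have h2 : ((-1 : ℝ)) ^ i = (-1) ^ k := by
        rcases Nat.even_or_odd k with hk | hk
        · have hi : Even i := by
            rw [Nat.even_iff] at hk ⊢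
            omega
          rw [hk.neg_one_pow, hi.neg_one_pow]
        · have hi : Odd i := by
            rw [Nat.odd_iff] at hk ⊢
            omega
          rw [hk.neg_one_pow, hi.neg_one_pow]
      rw [h2]
      ring
    · rw [hc i h]
      ring
  have h2 : (∑ i ∈ range (k + 1), c i * u i (-x)) ^ 2 =
      (∑ i ∈ range (k + 1), c i * u i x) ^ 2 := by
    rw [h1, mul_pow, ← pow_mul, mul_comm k 2, pow_mul]
    norm_num
  have h3 := hd (-x)
  rw [h2] at h3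
  have h4 : ∑ n ∈ range (2 * k + 1), (if n % 2 = 0 then d n else 0) * u n x =
      (∑ n ∈ range (2 * k + 1), d n * u n x + ∑ n ∈ range (2 * k + 1), d n * u n (-x)) / 2 := by
    rw [← sum_add_distrib, sum_div]
    refine sum_congr rfl fun n _ => ?_
    rw [u_neg]
    split_ifs with h
    · rw [(Nat.even_iff.2 h).neg_one_pow]
      ring
    · rw [(Nat.odd_iff.2 (by omega)).neg_one_pow]
      ring
  rw [h4, ← h3, ← hd x]
  ring

/-- `- log (1 - z) ≤ z + z²` for `0 ≤ z ≤ 1/2`. -/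
theorem neg_log_le {z : ℝ} (h0 : 0 ≤ z) (h1 : z ≤ 1 / 2) : -Real.log (1 - z) ≤ z + z ^ 2 := by
  have h2 : HasSum (fun n : ℕ => z ^ (n + 1) / ((n : ℝ) + 1)) (-Real.log (1 - z)) :=
    Real.hasSum_pow_div_log_of_abs_lt_one (by rw [abs_of_nonneg h0]; linarith)
  have h3 : HasSum (fun n : ℕ => z ^ 2 / 2 * z ^ n) (z ^ 2 / 2 * (1 - z)⁻¹) :=
    (hasSum_geometric_of_lt_one h0 (by linarith)).mul_left _
  have h4 := (hasSum_nat_add_iff' 1).2 h2
  have h5 : -Real.log (1 - z) - z ≤ z ^ 2 / 2 * (1 - z)⁻¹ := by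
    have h6 := hasSum_le (fun n => ?_) h4 h3
    · simpa using h6
    · have h7 : z ^ (n + 1 + 1) = z ^ 2 * z ^ n := by ring
      rw [h7, div_eq_mul_inv]
      have h8 : (((n + 1 : ℕ) : ℝ) + 1)⁻¹ ≤ 1 / 2 := by
        rw [inv_eq_one_div, div_le_div_iff₀ (by positivity) (by norm_num)]
        push_cast
        have : (0 : ℝ) ≤ n := Nat.cast_nonneg n
        linarith
      have h9 : 0 ≤ z ^ 2 * z ^ n := by positivity
      nlinarith
  have h6 : (1 - z)⁻¹ ≤ 2 := by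
    rw [inv_eq_one_div, div_le_iff₀ (by linarith)]
    linarith
  nlinarith [sq_nonneg z]

theorem Places.upper (h : Places N blk) (k : ℕ) (T : ℝ) (hT : 2 ≤ T) (S : Finset P) (α : P → ℂ)
    (hne : ∀ v, α v ≠ 0) (hu : ∀ v, ‖α v‖ = 1 ∨ (α v).im = 0)
    (hb : ∀ v, ‖α v‖ ^ (2 * k) < N v ∧ ‖(α v)⁻¹‖ ^ (2 * k) < N v)
    (hL : ∀ m : ℕ, 1 ≤ m → m ≤ k → ∀ F : P → ℝ → ℂ, (∀ v ∈ S, ∀ s, F v s = 1) →
      (∀ v ∉ S, ∀ s, F v s = symFactor (2 * m) (α v) ((N v : ℂ) ^ (-(s : ℂ)))) →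
      (∀ s : ℝ, 1 < s → Multipliable fun v => F v s) ∧
      ∃ c : ℂ, c ≠ 0 ∧ Tendsto (fun s : ℝ => ∏' v, F v s) (𝓝[>] 1) (𝓝 c)) :
    ∃ C : ℝ, ∀ᶠ s : ℝ in 𝓝[>] 1, ∀ E : P → ℝ,
      (∀ v, (‖α v‖ ≠ 1 ∧ T ≤ ‖α v + (α v)⁻¹‖) → E v = (N v : ℝ) ^ (-s)) →
      (∀ v, ¬ (‖α v‖ ≠ 1 ∧ T ≤ ‖α v + (α v)⁻¹‖) → E v = 0) →
      ∑' v, E v ≤ (1 / W k T) * ∑' v, (N v : ℝ) ^ (-s) + C := by
  classical
  set c0 : ℕ → ℝ := fun i => if (k + i) % 2 = 0 then u i T else 0 with hc0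
  obtain ⟨d', hd', hd0⟩ := sq_lin k c0
  set d : ℕ → ℝ := fun n => if n % 2 = 0 then d' n else 0 with hd_def
  have hd : ∀ x, (∑ i ∈ range (k + 1), c0 i * u i x) ^ 2 =
      ∑ n ∈ range (2 * k + 1), d n * u n x :=
    even_lin k c0 d' (fun i hi => by simp only [hc0]; rw [if_neg hi]) hd'
  have hd0' : d 0 = W k T := by
    simp only [hd_def]
    rw [if_pos (by norm_num), hd0, W]
    refine sum_congr rfl fun i _ => ?_
    simp only [hc0]
    split_ifs <;> simp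
  have hdodd : ∀ n, n % 2 ≠ 0 → d n = 0 := fun n hn => by
    simp only [hd_def]
    rw [if_neg hn]
  have hW := W_pos k hT
  set f : ℕ → P → ℝ → ℂ := fun n v s => if v ∈ S then (1 : ℂ) else
        symFactor n (α v) ((N v : ℂ) ^ (-(s : ℂ))) with hf
  have hN0 : ∀ v, (0 : ℝ) < N v := h.pos
  have hcast : ∀ v (s : ℝ), ((N v : ℂ) ^ (-(s : ℂ))) = (((N v : ℝ) ^ (-s) : ℝ) : ℂ) := by
    intro v s
    rw [Complex.ofReal_cpow (hN0 v).le]
    push_cast
    rfl
  have hz1 : ∀ v {s : ℝ}, 1 < s → (N v : ℝ) ^ (-s) ≤ 1 / 2 := fun v s hs => by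
    have h2 : (2 : ℝ) ≤ N v := by exact_mod_cast h.two v
    calc (N v : ℝ) ^ (-s) ≤ (N v : ℝ) ^ (-1 : ℝ) :=
          Real.rpow_le_rpow_of_exponent_le (h.one_le v) (by linarith)
      _ ≤ 1 / 2 := by
          rw [Real.rpow_neg_one, inv_eq_one_div]
          exact div_le_div_of_nonneg_left zero_le_one (by norm_num) h2
  have hz : ∀ v {s : ℝ}, 1 < s → (N v : ℝ) * (N v : ℝ) ^ (-s) ≤ 1 := by
    intro v s hs
    rw [Real.rpow_neg (hN0 v).le]
    have h6 : (N v : ℝ) ≤ (N v : ℝ) ^ s := by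
      calc (N v : ℝ) = (N v : ℝ) ^ (1 : ℝ) := (Real.rpow_one _).symm
        _ ≤ _ := Real.rpow_le_rpow_of_exponent_le (h.one_le v) hs.le
    rw [← div_eq_mul_inv, div_le_one (Real.rpow_pos_of_pos (hN0 v) _)]
    exact h6
  -- the logarithms of the `L`-functions are bounded near `1`
  have hlim : ∀ n : ℕ, ∃ K : ℝ, 1 ≤ n → n ≤ 2 * k → n % 2 = 0 → ∀ᶠ s : ℝ in 𝓝[>] 1,
      HasSum (fun v => Real.log ‖f n v s‖) (Real.log ‖∏' v, f n v s‖) ∧
      |Real.log ‖∏' v, f n v s‖| ≤ K := by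
    intro n
    by_cases hn1 : 1 ≤ n ∧ n ≤ 2 * k ∧ n % 2 = 0
    · obtain ⟨m, hm⟩ : ∃ m, n = 2 * m := ⟨n / 2, by omega⟩
      obtain ⟨hm1, c, hc, hct⟩ := hL m (by omega) (by omega) (fun v s => f n v s)
        (fun v hv s => by simp only [hf, if_pos hv])
        (fun v hv s => by simp only [hf, hm, if_neg hv])
      have h1 := ((Real.continuousAt_log (norm_ne_zero_iff.2 hc)).tendsto.comp
        (continuous_norm.tendsto c)).comp hct
      refine ⟨|Real.log ‖c‖| + 1, fun _ _ _ => ?_⟩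
      have h2 := hct.eventually_ne hc
      have h3 := h1.abs.eventually_le_const (u := |Real.log ‖c‖| + 1) (by linarith)
      filter_upwards [h2, h3, self_mem_nhdsWithin] with s e1 e2 e3
      have hs : 1 < s := e3
      refine ⟨hasSum_log (hm1 s hs).hasProd e1 fun v => ?_, e2⟩
      simp only [hf]
      split_ifs
      · exact one_ne_zero
      · choose t ht using fun m => real_trace (hne v) (hu v) m
        rw [hcast]
        exact (log_symFactor (hne v) (hu v) (hb v).1 (hb v).2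
          (Real.rpow_pos_of_pos (hN0 v) _) (hz v hs) t ht n hn1.2.1).1
    · exact ⟨0, fun h1 h2 h3 => absurd ⟨h1, h2, h3⟩ hn1⟩
  choose K hK using hlim
  -- the constant
  obtain ⟨Z2, hZ2⟩ : ∃ Z2 : ℝ, Z2 = ∑' v, (N v : ℝ) ^ (-2 : ℝ) := ⟨_, rfl⟩
  refine ⟨(W k T * Z2 + ∑ n ∈ range (2 * k + 1), |d n| * |K n|) / W k T ^ 2 + S.card, ?_⟩
  have hall : ∀ᶠ s : ℝ in 𝓝[>] 1, ∀ n ∈ range (2 * k + 1), 1 ≤ n → n ≤ 2 * k → n % 2 = 0 →
      HasSum (fun v => Real.log ‖f n v s‖) (Real.log ‖∏' v, f n v s‖) ∧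
      |Real.log ‖∏' v, f n v s‖| ≤ K n := by
    rw [Finset.eventually_all]
    intro n _
    by_cases hn : 1 ≤ n ∧ n ≤ 2 * k ∧ n % 2 = 0
    · filter_upwards [hK n hn.1 hn.2.1 hn.2.2] with s hs _ _ _ using hs
    · exact Eventually.of_forall fun s h1 h2 h3 => absurd ⟨h1, h2, h3⟩ hn
  filter_upwards [hall, self_mem_nhdsWithin] with s e1 e3 E hE1 hE2
  have hs : 1 < s := e3
  have hsumN : Summable fun v => (N v : ℝ) ^ (-s) := h.summable_rpow hs
  have hsumN2 : Summable fun v => (N v : ℝ) ^ (-2 : ℝ) := h.summable_rpow (by norm_num)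
  set ℓ : ℕ → P → ℝ := fun n v => Real.log ‖f n v s‖ with hℓ
  have hℓ0v : ∀ v, 0 ≤ ℓ 0 v ∧ ℓ 0 v ≤ (N v : ℝ) ^ (-s) + (N v : ℝ) ^ (-2 : ℝ) := by
    intro v
    have hpos : (0 : ℝ) < (N v : ℝ) ^ (-s) := Real.rpow_pos_of_pos (hN0 v) _
    have hpos2 : (0 : ℝ) < (N v : ℝ) ^ (-2 : ℝ) := Real.rpow_pos_of_pos (hN0 v) _
    simp only [hℓ, hf]
    split_ifs with hv
    · rw [norm_one, Real.log_one]
      exact ⟨le_rfl, by linarith⟩
    · rw [hcast]
      have e5 : symFactor 0 (α v) (((N v : ℝ) ^ (-s) : ℝ) : ℂ) =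
          (((1 - (N v : ℝ) ^ (-s))⁻¹ : ℝ) : ℂ) := by
        simp [symFactor]
      have hz2 := hz1 v hs
      rw [e5, Complex.norm_real, Real.norm_eq_abs, abs_of_pos (inv_pos.2 (by linarith)),
        Real.log_inv]
      refine ⟨?_, ?_⟩
      · have := Real.log_nonpos (x := 1 - (N v : ℝ) ^ (-s)) (by linarith) (by linarith)
        linarith
      · refine (neg_log_le hpos.le hz2).trans ?_
        have h9 : ((N v : ℝ) ^ (-s)) ^ 2 ≤ (N v : ℝ) ^ (-2 : ℝ) := by
          rw [← Real.rpow_natCast ((N v : ℝ) ^ (-s)), ← Real.rpow_mul (hN0 v).le]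
          refine Real.rpow_le_rpow_of_exponent_le (h.one_le v) ?_
          push_cast
          linarith
        linarith
  have hℓ0s : Summable (ℓ 0) :=
    Summable.of_nonneg_of_le (fun v => (hℓ0v v).1) (fun v => (hℓ0v v).2) (hsumN.add hsumN2)
  have hℓ0 : ∑' v, ℓ 0 v ≤ ∑' v, (N v : ℝ) ^ (-s) + Z2 := by
    rw [hZ2, ← hsumN.tsum_add hsumN2]
    exact hℓ0s.tsum_le_tsum (fun v => (hℓ0v v).2) (hsumN.add hsumN2)
  -- only even powers
  have hdl : ∀ n ∈ range (2 * k + 1), Summable (fun v => d n * ℓ n v) := by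
    intro n hn
    by_cases h2 : n % 2 = 0
    · rcases Nat.eq_zero_or_pos n with h1 | h1
      · rw [h1]; exact hℓ0s.mul_left _
      · exact ((e1 n hn h1 (by have := Finset.mem_range.1 hn; omega) h2).1.summable).mul_left _
    · rw [hdodd n h2]
      simp
  have hdK : ∀ n ∈ range (2 * k + 1), n ≠ 0 → ∑' v, d n * ℓ n v ≤ |d n| * |K n| := by
    intro n hn h1
    by_cases h2 : n % 2 = 0
    · have h3 := e1 n hn (by omega) (by have := Finset.mem_range.1 hn; omega) h2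
      rw [tsum_mul_left, h3.1.tsum_eq]
      calc _ ≤ |d n * _| := le_abs_self _
        _ = |d n| * |Real.log ‖∏' v, f n v s‖| := abs_mul _ _
        _ ≤ _ := mul_le_mul_of_nonneg_left (h3.2.trans (le_abs_self _)) (abs_nonneg _)
    · rw [hdodd n h2]
      simp
  have hE0 : ∀ v, 0 ≤ E v := by
    intro v
    by_cases hv : ‖α v‖ ≠ 1 ∧ T ≤ ‖α v + (α v)⁻¹‖
    · rw [hE1 v hv]; exact (Real.rpow_pos_of_pos (hN0 v) _).le
    · rw [hE2 v hv]
  have hEle : ∀ v, E v ≤ (N v : ℝ) ^ (-s) := by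
    intro v
    by_cases hv : ‖α v‖ ≠ 1 ∧ T ≤ ‖α v + (α v)⁻¹‖
    · rw [hE1 v hv]
    · rw [hE2 v hv]; exact (Real.rpow_pos_of_pos (hN0 v) _).le
  have hEs : Summable E := Summable.of_nonneg_of_le hE0 hEle hsumN
  set E' : P → ℝ := fun v => if v ∈ S then 0 else E v with hE'
  have hE's : Summable E' := by
    refine Summable.of_nonneg_of_le (fun v => ?_) (fun v => ?_) hEs
    · simp only [hE']
      split_ifs
      · exact le_rfl
      · exact hE0 v
    · simp only [hE']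
      split_ifs
      · exact hE0 v
      · exact le_rfl
  have hmain : ∀ v, W k T ^ 2 * E' v ≤ ∑ n ∈ range (2 * k + 1), d n * ℓ n v := by
    intro v
    by_cases hv : v ∈ S
    · simp [hE', hℓ, hf, hv]
    · simp only [hE', hℓ, hf, if_neg hv]
      rw [hcast]
      obtain ⟨x, hx⟩ := real_trace (hne v) (hu v) 1
      rw [pow_one] at hx
      have h1 := local_ineq (hne v) (hu v) (hb v).1 (hb v).2
        (Real.rpow_pos_of_pos (hN0 v) (-s)) (hz v hs) c0 d hd x hx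
      refine le_trans ?_ h1
      by_cases h2 : ‖α v‖ ≠ 1 ∧ T ≤ ‖α v + (α v)⁻¹‖
      · rw [hE1 v h2, mul_comm]
        refine mul_le_mul_of_nonneg_left ?_ (Real.rpow_pos_of_pos (hN0 v) _).le
        have h3 : T ≤ |x| := by
          have := h2.2
          rw [hx, Complex.norm_real] at this
          exact this
        exact kernel_ge k hT h3
      · rw [hE2 v h2, mul_zero]
        have := Real.rpow_pos_of_pos (hN0 v) (-s)
        positivity
  have h1 : W k T ^ 2 * ∑' v, E' v ≤ ∑ n ∈ range (2 * k + 1), ∑' v, d n * ℓ n v := by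
    rw [← Summable.tsum_finsetSum hdl, ← tsum_mul_left]
    exact (hE's.mul_left _).tsum_le_tsum hmain (summable_sum hdl)
  have h2 : ∑ n ∈ range (2 * k + 1), ∑' v, d n * ℓ n v ≤
      W k T * (∑' v, (N v : ℝ) ^ (-s) + Z2) + ∑ n ∈ range (2 * k + 1), |d n| * |K n| := by
    rw [Finset.sum_range_succ' (fun n => ∑' v, d n * ℓ n v), tsum_mul_left, hd0', add_comm]
    refine add_le_add (mul_le_mul_of_nonneg_left hℓ0 hW.le) ?_
    rw [Finset.sum_range_succ' (fun n => |d n| * |K n|)]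
    refine le_add_of_le_of_nonneg ?_ (by positivity)
    exact Finset.sum_le_sum fun n hn => hdK (n + 1)
      (by have := Finset.mem_range.1 hn; exact Finset.mem_range.2 (by omega)) (by omega)
  have h3 : ∑' v, E v ≤ ∑' v, E' v + S.card := by
    have h4 : ∑' v, E v - ∑' v, E' v = ∑' v, (E v - E' v) := (hEs.tsum_sub hE's).symm
    have h5 : ∑' v, (E v - E' v) = ∑ v ∈ S, (E v - E' v) := by
      refine tsum_eq_sum fun v hv => ?_
      simp [hE', hv]
    have h6 : ∑ v ∈ S, (E v - E' v) ≤ ∑ _v ∈ S, (1 : ℝ) := by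
      refine Finset.sum_le_sum fun v hv => ?_
      simp only [hE', if_pos hv, sub_zero]
      have := hz1 v hs
      have := hEle v
      linarith
    rw [Finset.sum_const, nsmul_eq_mul, mul_one] at h6
    linarith
  have h4 : ∑' v, E' v ≤ (1 / W k T) * ∑' v, (N v : ℝ) ^ (-s) +
      (W k T * Z2 + ∑ n ∈ range (2 * k + 1), |d n| * |K n|) / W k T ^ 2 := by
    have h5 := h1.trans h2
    have h6 : ∑' v, E' v ≤ (W k T * (∑' v, (N v : ℝ) ^ (-s) + Z2) +
        ∑ n ∈ range (2 * k + 1), |d n| * |K n|) / W k T ^ 2 := by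
      rw [le_div_iff₀ (by positivity)]
      linarith
    refine h6.trans (le_of_eq ?_)
    field_simp
    ring
  linarith

end Pool.Agent.H414.V
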